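import Mathlib

set_option autoImplicit false

/-!
# Polar coordinates for functions supported in a ball
-/

namespace Pool.Agent.Y243.HW

open MeasureTheory Set Filter Topology Metric
open scoped ENNReal NNReal RealInnerProductSpace

/-- the Euclidean space -/
abbrev E (n : ℕ) := EuclideanSpace ℝ (Fin n)

/-- surface measure on the unit sphere -/
noncomputable abbrev sg (n : ℕ) : Measure (sphere (0 : E n) 1) := (volume : Measure (E n)).toSphere

theorem polarF {F : Type*} [NormedAddCommGroup F] [InnerProductSpace ℝ F] [FiniteDimensional ℝ F]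
    [MeasurableSpace F] [BorelSpace F] [Nontrivial F] (g : F → ℝ) (hg : Integrable g) :
    ∫ y : F, g y = ∫ v : sphere (0 : F) 1,
      (∫ r in Ioi (0:ℝ), r ^ (Module.finrank ℝ F - 1) * g (r • (v : F)))
        ∂((volume : Measure F).toSphere) := by
  have hmp := (volume : Measure F).measurePreserving_homeomorphUnitSphereProd
  have hemb := (homeomorphUnitSphereProd F).measurableEmbedding
  have hcomp : ∀ x : ({(0 : F)}ᶜ : Set F),
      (fun p : sphere (0 : F) 1 × Ioi (0:ℝ) => g ((p.2 : ℝ) • (p.1 : F)))
        (homeomorphUnitSphereProd F x) = g x := by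
    intro x
    show g _ = g x
    congr 1
    have h1 := (homeomorphUnitSphereProd F).symm_apply_apply x
    have h2 := congrArg Subtype.val h1
    rw [homeomorphUnitSphereProd_symm_apply_coe] at h2
    exact h2
  have hint : Integrable (fun p : sphere (0 : F) 1 × Ioi (0:ℝ) => g ((p.2 : ℝ) • (p.1 : F)))
      ((volume : Measure F).toSphere.prod
        (Measure.volumeIoiPow (Module.finrank ℝ F - 1))) := by
    rw [← hmp.integrable_comp_emb hemb]
    have h1 : IntegrableOn g ({(0 : F)}ᶜ : Set F) := hg.integrableOn
    rw [integrableOn_iff_comap_subtypeVal (measurableSet_singleton _).compl] at h1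
    refine h1.congr (Filter.Eventually.of_forall fun x => ?_)
    exact (hcomp x).symm
  calc ∫ y : F, g y = ∫ x : ({(0 : F)}ᶜ : Set F), g x ∂((volume : Measure F).comap (↑)) := by
        rw [integral_subtype_comap (measurableSet_singleton _).compl g,
          restrict_compl_singleton]
    _ = ∫ x : ({(0 : F)}ᶜ : Set F),
        (fun p : sphere (0 : F) 1 × Ioi (0:ℝ) => g ((p.2 : ℝ) • (p.1 : F)))
          (homeomorphUnitSphereProd F x) ∂((volume : Measure F).comap (↑)) := by
        congr 1
        funext x
        exact (hcomp x).symm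
    _ = ∫ p : sphere (0 : F) 1 × Ioi (0:ℝ), g ((p.2 : ℝ) • (p.1 : F))
          ∂((volume : Measure F).toSphere.prod
            (Measure.volumeIoiPow (Module.finrank ℝ F - 1))) :=
        hmp.integral_comp hemb (fun p : sphere (0 : F) 1 × Ioi (0:ℝ) => g ((p.2 : ℝ) • (p.1 : F)))
    _ = ∫ v : sphere (0 : F) 1, ∫ r : Ioi (0:ℝ), g ((r : ℝ) • (v : F))
          ∂(Measure.volumeIoiPow (Module.finrank ℝ F - 1))
          ∂((volume : Measure F).toSphere) := integral_prod _ hint
    _ = _ := by
        congr 1
        funext v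
        simp only [Measure.volumeIoiPow, ENNReal.ofReal]
        rw [integral_withDensity_eq_integral_smul,
          integral_subtype_comap measurableSet_Ioi
            fun a ↦ Real.toNNReal (a ^ (Module.finrank ℝ F - 1)) • g (a • (v : F)),
          setIntegral_congr_fun measurableSet_Ioi fun x hx ↦ ?_]
        · rw [NNReal.smul_def, Real.coe_toNNReal _ (pow_nonneg (le_of_lt hx) _), smul_eq_mul]
        · exact (measurable_subtype_coe.pow_const _).real_toNNReal

theorem norm_sph {n : ℕ} (v : sphere (0 : E n) 1) : ‖(v : E n)‖ = 1 := by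
  simp

/-- polar coordinates for an integrable function vanishing outside the ball of radius `R` -/
theorem polarR {n : ℕ} (hn : 1 ≤ n) {g : E n → ℝ} (hg : Integrable g) {R : ℝ} (hR : 0 ≤ R)
    (h0 : ∀ x, R < ‖x‖ → g x = 0) :
    ∫ y : E n, g y = ∫ v : sphere (0 : E n) 1,
      (∫ r in (0:ℝ)..R, r ^ (n - 1) * g (r • (v : E n))) ∂(sg n) := by
  have : Nontrivial (E n) := by
    have : Nonempty (Fin n) := ⟨⟨0, hn⟩⟩
    infer_instance
  rw [polarF g hg, finrank_euclideanSpace_fin]
  refine integral_congr_ae (Eventually.of_forall fun v => ?_)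
  show ∫ r in Ioi (0:ℝ), r ^ (n - 1) * g (r • (v : E n)) =
    ∫ r in (0:ℝ)..R, r ^ (n - 1) * g (r • (v : E n))
  rw [intervalIntegral.integral_of_le hR]
  apply setIntegral_eq_of_subset_of_forall_diff_eq_zero measurableSet_Ioi Ioc_subset_Ioi_self
  intro r hr
  have hr0 : 0 < r := hr.1
  have hrR : R < r := by
    by_contra h
    exact hr.2 ⟨hr0, not_lt.1 h⟩
  rw [h0, mul_zero]
  rw [norm_smul, norm_sph, mul_one, Real.norm_of_nonneg hr0.le]
  exact hrR

end Pool.Agent.Y243.HW
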