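import Pool.Agent.Y243.HW.Ray

set_option autoImplicit false

/-!
# The radial part: a weighted Poincare inequality on `(0, R)` by duality
-/

namespace Pool.Agent.Y243.HW

open MeasureTheory Set Filter Topology

/-- the pointwise algebra -/
theorem radial_alg {N c κ α C r w n : ℝ} (hn : N = n + c * r ^ 2) (hc : c = n + 2 * α - 2 * κ)
    (hC : C * (1 + r ^ 2) ≤ 2 * κ * N - 2 * c * (1 + r ^ 2)) (hw : 0 ≤ w) :
    C * (r ^ 2 * (1 + r ^ 2)) * w ≤
      -(2 * c * r ^ 2 * (1 + r ^ 2) - n * N * (1 + r ^ 2) - 2 * α * N * r ^ 2) * w - N ^ 2 * w := by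
  have h1 : C * (r ^ 2 * (1 + r ^ 2)) ≤ r ^ 2 * (2 * κ * N - 2 * c * (1 + r ^ 2)) := by
    nlinarith [mul_le_mul_of_nonneg_left hC (sq_nonneg r)]
  have h2 : r ^ 2 * (2 * κ * N - 2 * c * (1 + r ^ 2)) =
      -(2 * c * r ^ 2 * (1 + r ^ 2) - n * N * (1 + r ^ 2) - 2 * α * N * r ^ 2) - N ^ 2 := by
    rw [hn, hc]; ring
  have h3 := mul_le_mul_of_nonneg_right (h1.trans h2.le) hw
  linarith

theorem radial (k : ℕ) {α κ C R c : ℝ} (hR : 0 < R) (hC0 : 0 ≤ C) {y y' : ℝ → ℝ}
    (hy : ∀ r, HasDerivAt y (y' r) r) (hy' : Continuous y')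
    (hc : c = (k + 3) + 2 * α - 2 * κ)
    (hC : ∀ r : ℝ, C * (1 + r ^ 2) ≤ 2 * κ * ((k + 3) + c * r ^ 2) - 2 * c * (1 + r ^ 2))
    (hmean : ∫ r in (0:ℝ)..R, r ^ (k + 2) * W (α - 1) r * y r = 0) :
    C * ∫ r in (0:ℝ)..R, r ^ (k + 2) * W (α - 1) r * y r ^ 2 ≤
      ∫ r in (0:ℝ)..R, r ^ (k + 2) * W α r * y' r ^ 2 := by
  have hWc := W_cont
  have cy : Continuous y := continuous_iff_continuousAt.2 fun r => (hy r).continuousAt
  set m : ℝ → ℝ := fun r => r ^ (k + 2) * W (α - 1) r with hm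
  set A : ℝ → ℝ := fun r => r ^ (k + 2) * W α r with hA
  have cm : Continuous m := (continuous_pow _).mul (hWc _)
  have cA : Continuous A := (continuous_pow _).mul (hWc _)
  set g : ℝ → ℝ := fun r => ∫ t in (0:ℝ)..r, m t * y t with hg
  have cmy : Continuous fun t => m t * y t := cm.mul cy
  have hgd : ∀ r, HasDerivAt g (m r * y r) r := fun r => cmy.integral_hasStrictDerivAt 0 r |>.hasDerivAt
  have cg : Continuous g := continuous_iff_continuousAt.2 fun r => (hgd r).continuousAt
  have g0 : g 0 = 0 := by simp [hg]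
  have gR : g R = 0 := hmean
  set Nf : ℝ → ℝ := fun r => (k + 3) + c * r ^ 2 with hNf
  set K : ℝ → ℝ := fun r => Nf r * W (-α) r / r ^ (k + 3) with hK
  set K' : ℝ → ℝ := fun r => (2 * c * r ^ 2 * (1 + r ^ 2) - (k + 3) * Nf r * (1 + r ^ 2) -
    2 * α * Nf r * r ^ 2) * W (-α - 1) r / r ^ (k + 4) with hK'
  have hKd : ∀ r, 0 < r → HasDerivAt K (K' r) r := by
    intro r hr
    have h1 : HasDerivAt Nf (c * (2 * r)) r := by
      have h0 := ((hasDerivAt_pow 2 r).const_mul c).const_add ((k : ℝ) + 3)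
      refine h0.congr_deriv ?_
      push_cast
      ring
    have h2 := (h1.fun_mul (W_deriv (-α) r)).fun_div (hasDerivAt_pow (k + 3) r)
      (pow_ne_zero _ hr.ne')
    refine h2.congr_deriv ?_
    simp only [hK']
    have e1 : W (-α) r = W (-α - 1) r * (1 + r ^ 2) := W_pred _ _
    rw [e1]
    have hr' : r ≠ 0 := hr.ne'
    have e2 : k + 3 - 1 = k + 2 := rfl
    rw [e2]
    push_cast
    field_simp
    ring
  -- the inequality on `[ε, R]`
  have key : ∀ ε ∈ Ioo (0:ℝ) R, C * (∫ r in ε..R, m r * y r ^ 2) + 2 * C * (y ε * g ε) -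
      C * (g ε ^ 2 * K ε) ≤ ∫ r in ε..R, A r * y' r ^ 2 := by
    intro ε hε
    have hεR : ε ≤ R := hε.2.le
    have pos : ∀ r ∈ uIcc ε R, 0 < r := by
      intro r hr
      rw [uIcc_of_le hεR] at hr
      exact lt_of_lt_of_le hε.1 hr.1
    have cK' : ContinuousOn K' (uIcc ε R) := by
      simp only [hK']
      apply ContinuousOn.div
      · apply Continuous.continuousOn
        have := hWc (-α - 1)
        fun_prop
      · fun_prop
      · intro r hr
        exact pow_ne_zero _ (pos r hr).ne'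
    have cK : ContinuousOn K (uIcc ε R) := by
      simp only [hK]
      apply ContinuousOn.div
      · apply Continuous.continuousOn
        have := hWc (-α)
        fun_prop
      · fun_prop
      · intro r hr
        exact pow_ne_zero _ (pos r hr).ne'
    have cAi : ContinuousOn (fun r => g r ^ 2 / A r) (uIcc ε R) := by
      apply ContinuousOn.div
      · fun_prop
      · fun_prop
      · intro r hr
        have := pos r hr
        have h2 := W_pos α r
        simp only [hA]
        positivity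
    have i1 : IntervalIntegrable (fun r => m r * y r ^ 2) volume ε R :=
      (cm.mul (cy.pow 2)).intervalIntegrable _ _
    have i2 : IntervalIntegrable (fun r => g r ^ 2 / A r) volume ε R := cAi.intervalIntegrable
    have i3 : IntervalIntegrable (fun r => 2 * g r * (m r * y r) * K r + g r ^ 2 * K' r)
        volume ε R := by
      apply ContinuousOn.intervalIntegrable
      apply ContinuousOn.add
      · exact (((continuous_const.mul cg).mul cmy).continuousOn).mul cK
      · exact (cg.pow 2).continuousOn.mul cK'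
    have i4 : IntervalIntegrable (fun r => y' r * g r) volume ε R :=
      (hy'.mul cg).intervalIntegrable _ _
    have i5 : IntervalIntegrable (fun r => A r * y' r ^ 2) volume ε R :=
      (cA.mul (hy'.pow 2)).intervalIntegrable _ _
    -- FTC for `g^2 K`
    have f1 : ∫ r in ε..R, (2 * g r * (m r * y r) * K r + g r ^ 2 * K' r) = -(g ε ^ 2 * K ε) := by
      rw [intervalIntegral.integral_eq_sub_of_hasDerivAt (f := fun r => g r ^ 2 * K r)
        (fun r hr => ?_) i3]
      · rw [gR]; ring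
      · have h1 := ((hgd r).fun_pow 2).fun_mul (hKd r (pos r hr))
        refine h1.congr_deriv ?_
        push_cast
        ring
    -- FTC for `y g`
    have f2 : ∫ r in ε..R, (y' r * g r + m r * y r ^ 2) = -(y ε * g ε) := by
      rw [intervalIntegral.integral_eq_sub_of_hasDerivAt (f := fun r => y r * g r)
        (fun r hr => ?_) (i4.add i1)]
      · rw [gR]; ring
      · have h1 := (hy r).fun_mul (hgd r)
        refine h1.congr_deriv ?_
        ring
    rw [intervalIntegral.integral_add i4 i1] at f2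
    -- Hardy
    have f3 : -(g ε ^ 2 * K ε) + C * ∫ r in ε..R, g r ^ 2 / A r ≤ ∫ r in ε..R, m r * y r ^ 2 := by
      rw [← f1, ← intervalIntegral.integral_const_mul, ← intervalIntegral.integral_add i3
        (i2.const_mul C)]
      apply intervalIntegral.integral_mono_on_of_le_Ioo hεR (i3.add (i2.const_mul C)) i1
      intro r hr
      have hr0 : 0 < r := hε.1.trans hr.1
      have hr' : r ≠ 0 := hr0.ne'
      simp only [hm, hA, hK, hK']
      have hw := W_pos (-α - 1) r
      have e1 : W (-α) r = W (-α - 1) r * (1 + r ^ 2) := W_pred _ _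
      have e3 : W α r * W (-α) r = 1 := by
        rw [← W_add]; simp [W]
      have hα : 0 < W α r := W_pos _ _
      have hα1 : 0 < W (α - 1) r := W_pos _ _
      have e5 : W α r = W (α - 1) r * (1 + r ^ 2) := W_pred _ _
      have e6 : W (α - 1) r * W (-α - 1) r * (1 + r ^ 2) ^ 2 = 1 := by
        have e10 := e3
        rw [e1, e5] at e10
        linarith
      have alg := radial_alg (N := Nf r) (n := (k : ℝ) + 3) (w := W (-α - 1) r) (r := r)
        rfl hc (by simpa [hNf] using hC r) hw.le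
      -- square
      have sq : 0 ≤ r ^ (k + 2) * W (α - 1) r *
          (y r - g r * Nf r * W (-α - 1) r * (1 + r ^ 2) / r ^ (k + 3)) ^ 2 := by positivity
      have e7 : r ^ (k + 2) * W (α - 1) r *
          (y r - g r * Nf r * W (-α - 1) r * (1 + r ^ 2) / r ^ (k + 3)) ^ 2 =
          r ^ (k + 2) * W (α - 1) r * y r ^ 2 -
          2 * g r * (r ^ (k + 2) * W (α - 1) r * y r) *
            (Nf r * (W (-α - 1) r * (1 + r ^ 2)) / r ^ (k + 3)) +
          g r ^ 2 * (Nf r ^ 2 * W (-α - 1) r * (W (α - 1) r * W (-α - 1) r * (1 + r ^ 2) ^ 2)) /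
            r ^ (k + 4) := by
        field_simp
        ring
      rw [e7, e6] at sq
      have e8 : g r ^ 2 / (r ^ (k + 2) * W α r) =
          g r ^ 2 * (r ^ 2 * (1 + r ^ 2) * W (-α - 1) r) / r ^ (k + 4) := by
        rw [div_eq_div_iff (by positivity) (by positivity)]
        have e9 : (1 + r ^ 2) * W (-α - 1) r * W α r = 1 := by
          have e10 := e3
          rw [e1] at e10
          linarith
        calc g r ^ 2 * r ^ (k + 4) = g r ^ 2 * r ^ (k + 4) *
              ((1 + r ^ 2) * W (-α - 1) r * W α r) := by rw [e9, mul_one]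
          _ = _ := by ring
      have h5 : 0 ≤ g r ^ 2 / r ^ (k + 4) := by positivity
      have h6 := mul_le_mul_of_nonneg_left alg h5
      rw [e8, e1]
      have h7 : C * (g r ^ 2 * (r ^ 2 * (1 + r ^ 2) * W (-α - 1) r) / r ^ (k + 4)) =
          g r ^ 2 / r ^ (k + 4) * (C * (r ^ 2 * (1 + r ^ 2)) * W (-α - 1) r) := by ring
      have h8 : g r ^ 2 * ((2 * c * r ^ 2 * (1 + r ^ 2) - (k + 3) * Nf r * (1 + r ^ 2) -
          2 * α * Nf r * r ^ 2) * W (-α - 1) r / r ^ (k + 4)) =
          -(g r ^ 2 / r ^ (k + 4) * (-(2 * c * r ^ 2 * (1 + r ^ 2) - (k + 3) * Nf r * (1 + r ^ 2) -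
          2 * α * Nf r * r ^ 2) * W (-α - 1) r)) := by ring
      rw [h7, h8]
      have h9 : g r ^ 2 * (Nf r ^ 2 * W (-α - 1) r * 1) / r ^ (k + 4) =
          g r ^ 2 / r ^ (k + 4) * (Nf r ^ 2 * W (-α - 1) r) := by ring
      rw [h9] at sq
      rw [mul_sub] at h6
      linarith
    -- third square
    have f4 : -(2 * C) * (∫ r in ε..R, y' r * g r) - C ^ 2 * (∫ r in ε..R, g r ^ 2 / A r) ≤
        ∫ r in ε..R, A r * y' r ^ 2 := by
      rw [← intervalIntegral.integral_const_mul, ← intervalIntegral.integral_const_mul,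
        ← intervalIntegral.integral_sub (i4.const_mul _) (i2.const_mul _)]
      apply intervalIntegral.integral_mono_on_of_le_Ioo hεR
        ((i4.const_mul _).sub (i2.const_mul _)) i5
      intro r hr
      have hr0 : 0 < r := hε.1.trans hr.1
      have hAp : 0 < A r := mul_pos (pow_pos hr0 _) (W_pos _ _)
      have h1 : 0 ≤ A r * (y' r + C * g r / A r) ^ 2 := by positivity
      have h2 : A r * (y' r + C * g r / A r) ^ 2 =
          A r * y' r ^ 2 + 2 * C * (y' r * g r) + C ^ 2 * (g r ^ 2 / A r) := by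
        field_simp
        ring
      linarith
    have h10 := mul_le_mul_of_nonneg_left f3 hC0
    have h11 : (∫ r in ε..R, y' r * g r) = -(y ε * g ε) - ∫ r in ε..R, m r * y r ^ 2 := by
      linarith
    rw [h11] at f4
    nlinarith
  -- limit `ε → 0`
  obtain ⟨M, hM⟩ : ∃ M, ∀ t ∈ Icc (0:ℝ) R, |W (α - 1) t * y t| ≤ M := by
    obtain ⟨M, hM⟩ := isCompact_Icc.exists_bound_of_continuousOn
      (s := Icc (0:ℝ) R) (f := fun t => W (α - 1) t * y t) ((hWc _).mul cy).continuousOn
    exact ⟨M, hM⟩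
  have hM0 : 0 ≤ M := (abs_nonneg _).trans (hM 0 ⟨le_rfl, hR.le⟩)
  have hgb : ∀ ε ∈ Ioo (0:ℝ) R, |g ε| ≤ M * ε ^ (k + 3) := by
    intro ε hε
    have h1 : ‖∫ t in (0:ℝ)..ε, m t * y t‖ ≤ M * ε ^ (k + 2) * |ε - 0| := by
      apply intervalIntegral.norm_integral_le_of_norm_le_const
      intro t ht
      rw [uIoc_of_le hε.1.le] at ht
      have h2 := hM t ⟨ht.1.le, ht.2.trans hε.2.le⟩
      have h3 : m t * y t = t ^ (k + 2) * (W (α - 1) t * y t) := by simp only [hm]; ring
      rw [h3, Real.norm_eq_abs, abs_mul, abs_of_nonneg (pow_nonneg ht.1.le _), mul_comm M]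
      exact mul_le_mul (pow_le_pow_left₀ ht.1.le ht.2 _) h2 (abs_nonneg _)
        (pow_nonneg hε.1.le _)
    rw [sub_zero, abs_of_pos hε.1] at h1
    calc |g ε| ≤ M * ε ^ (k + 2) * ε := h1
      _ = M * ε ^ (k + 3) := by ring
  have l1 : Tendsto (fun ε => ∫ r in ε..R, m r * y r ^ 2) (𝓝[>] 0)
      (𝓝 (∫ r in (0:ℝ)..R, m r * y r ^ 2)) := by
    have hc1 : Continuous fun ε => ∫ r in ε..R, m r * y r ^ 2 := by
      have h1 : (fun ε => ∫ r in ε..R, m r * y r ^ 2) =
          fun ε => -∫ r in R..ε, m r * y r ^ 2 := by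
        funext ε; rw [intervalIntegral.integral_symm]
      rw [h1]
      exact (intervalIntegral.continuous_primitive
        (fun a b => (cm.mul (cy.pow 2)).intervalIntegrable a b) R).neg
    exact (hc1.tendsto 0).mono_left nhdsWithin_le_nhds
  have l2 : Tendsto (fun ε => ∫ r in ε..R, A r * y' r ^ 2) (𝓝[>] 0)
      (𝓝 (∫ r in (0:ℝ)..R, A r * y' r ^ 2)) := by
    have hc1 : Continuous fun ε => ∫ r in ε..R, A r * y' r ^ 2 := by
      have h1 : (fun ε => ∫ r in ε..R, A r * y' r ^ 2) =
          fun ε => -∫ r in R..ε, A r * y' r ^ 2 := by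
        funext ε; rw [intervalIntegral.integral_symm]
      rw [h1]
      exact (intervalIntegral.continuous_primitive
        (fun a b => (cA.mul (hy'.pow 2)).intervalIntegrable a b) R).neg
    exact (hc1.tendsto 0).mono_left nhdsWithin_le_nhds
  have l3 : Tendsto (fun ε => y ε * g ε) (𝓝[>] 0) (𝓝 0) := by
    have : Tendsto (fun ε => y ε * g ε) (𝓝 0) (𝓝 (y 0 * g 0)) := (cy.mul cg).tendsto 0
    rw [g0, mul_zero] at this
    exact this.mono_left nhdsWithin_le_nhds
  have l4 : Tendsto (fun ε => g ε ^ 2 * K ε) (𝓝[>] 0) (𝓝 0) := by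
    have hb : ∀ᶠ ε in 𝓝[>] (0:ℝ), ‖g ε ^ 2 * K ε‖ ≤
        M ^ 2 * ε ^ (k + 3) * |Nf ε * W (-α) ε| := by
      filter_upwards [Ioo_mem_nhdsGT hR] with ε hε
      have h1 := hgb ε hε
      have hε0 : 0 < ε := hε.1
      simp only [hK]
      rw [norm_mul, norm_div, Real.norm_eq_abs, Real.norm_eq_abs, Real.norm_eq_abs, abs_pow,
        abs_of_nonneg (pow_nonneg hε0.le (k + 3))]
      have h2 : |g ε| ^ 2 ≤ (M * ε ^ (k + 3)) ^ 2 := pow_le_pow_left₀ (abs_nonneg _) h1 2
      calc |g ε| ^ 2 * (|Nf ε * W (-α) ε| / ε ^ (k + 3))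
          ≤ (M * ε ^ (k + 3)) ^ 2 * (|Nf ε * W (-α) ε| / ε ^ (k + 3)) := by
            apply mul_le_mul_of_nonneg_right h2; positivity
        _ = _ := by field_simp
    apply squeeze_zero_norm' hb
    have hcn : Continuous fun ε : ℝ => M ^ 2 * ε ^ (k + 3) * |Nf ε * W (-α) ε| := by
      have := hWc (-α)
      fun_prop
    have := (hcn.tendsto 0).mono_left (nhdsWithin_le_nhds (s := Ioi (0:ℝ)))
    simpa using this
  have l5 := ((l1.const_mul C).add (l3.const_mul (2 * C))).sub (l4.const_mul C)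
  have hfin := le_of_tendsto_of_tendsto l5 l2 (by
    filter_upwards [Ioo_mem_nhdsGT hR] with ε hε
    exact key ε hε)
  simpa using hfin

end Pool.Agent.Y243.HW
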