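import Mathlib

set_option autoImplicit false

/-!
# One dimensional weighted inequalities along rays
-/

namespace Pool.Agent.Y243.HW

open MeasureTheory Set Filter Topology

/-- the one dimensional weight -/
noncomputable def W (a r : ℝ) : ℝ := (1 + r ^ 2) ^ a

theorem W_pos (a r : ℝ) : 0 < W a r := Real.rpow_pos_of_pos (by positivity) _

theorem W_cont (a : ℝ) : Continuous (W a) := by
  unfold W
  exact (by fun_prop : Continuous fun r : ℝ => 1 + r ^ 2).rpow_const
    (fun r => Or.inl (by positivity))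

theorem W_succ (a r : ℝ) : W (a + 1) r = W a r * (1 + r ^ 2) := by
  unfold W
  rw [Real.rpow_add_one (by positivity)]

theorem W_pred (a r : ℝ) : W a r = W (a - 1) r * (1 + r ^ 2) := by
  rw [← W_succ]; ring_nf

theorem W_add (a b r : ℝ) : W (a + b) r = W a r * W b r := by
  unfold W
  exact Real.rpow_add (by positivity) _ _

theorem W_deriv (a r : ℝ) : HasDerivAt (W a) (2 * a * r * W (a - 1) r) r := by
  unfold W
  have h1 : HasDerivAt (fun r : ℝ => 1 + r ^ 2) (2 * r) r := by
    simpa using (hasDerivAt_pow 2 r).const_add 1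
  have h2 := h1.rpow_const (p := a) (Or.inl (by positivity))
  convert h2 using 1
  ring

theorem quad {A P Q x y : ℝ} (hA : 0 < A) (h : P ^ 2 ≤ A * Q) :
    2 * P * y * x - Q * y ^ 2 ≤ A * x ^ 2 := by
  have h1 : 0 ≤ A * (A * x ^ 2 - 2 * P * y * x + Q * y ^ 2) := by
    nlinarith [sq_nonneg (A * x - P * y), mul_nonneg (sub_nonneg.2 h) (sq_nonneg y)]
  have h2 := nonneg_of_mul_nonneg_right h1 hA
  linarith

/-- The basic inequality `∫ A v'^2 ≥ ∫ (-P' - Q) v^2`. -/
theorem ray {a b : ℝ} (hR : a ≤ b) {v v' A P P' Q : ℝ → ℝ}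
    (hv : ∀ r, HasDerivAt v (v' r) r) (hv' : Continuous v') (hA : Continuous A)
    (hP : ∀ r, HasDerivAt P (P' r) r) (hP' : Continuous P') (hQ : Continuous Q)
    (hApos : ∀ r ∈ Ioo a b, 0 < A r) (hPQ : ∀ r ∈ Ioo a b, P r ^ 2 ≤ A r * Q r)
    (h0 : P a * v a ^ 2 = 0) (h1 : P b * v b ^ 2 = 0) :
    ∫ r in a..b, (-P' r - Q r) * v r ^ 2 ≤ ∫ r in a..b, A r * v' r ^ 2 := by
  have cv : Continuous v := continuous_iff_continuousAt.2 fun r => (hv r).continuousAt
  have cP : Continuous P := continuous_iff_continuousAt.2 fun r => (hP r).continuousAt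
  have hI : ∫ r in a..b, (P' r * v r ^ 2 + P r * (2 * v r * v' r)) = 0 := by
    have := intervalIntegral.integral_eq_sub_of_hasDerivAt (a := a) (b := b)
      (f := fun r => P r * v r ^ 2) (f' := fun r => P' r * v r ^ 2 + P r * (2 * v r * v' r))
      (fun r _ => by
        have h3 := (hP r).fun_mul ((hv r).fun_pow 2)
        refine h3.congr_deriv ?_
        push_cast
        ring) (by
        apply Continuous.intervalIntegrable
        fun_prop)
    rw [this, h0, h1, sub_zero]
  have hle : ∫ r in a..b, ((P' r * v r ^ 2 + P r * (2 * v r * v' r)) +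
      (-P' r - Q r) * v r ^ 2) ≤ ∫ r in a..b, A r * v' r ^ 2 := by
    apply intervalIntegral.integral_mono_on_of_le_Ioo hR
    · apply Continuous.intervalIntegrable
      fun_prop
    · apply Continuous.intervalIntegrable
      fun_prop
    · intro r hr
      have := quad (x := v' r) (y := v r) (hApos r hr) (hPQ r hr)
      linarith
  rw [intervalIntegral.integral_add, hI, zero_add] at hle
  · exact hle
  · apply Continuous.intervalIntegrable
    fun_prop
  · apply Continuous.intervalIntegrable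
    fun_prop

/-- unconstrained case -/
theorem rayA (k : ℕ) {α s C R : ℝ} (hR : 0 ≤ R) {v v' : ℝ → ℝ}
    (hv : ∀ r, HasDerivAt v (v' r) r) (hv' : Continuous v') (h1 : v R = 0)
    (hC : ∀ r : ℝ, C * (1 + r ^ 2) ≤
      2 * s * (k + 3) * (1 + r ^ 2) + 4 * s * (α - 1) * r ^ 2 - 4 * s ^ 2 * r ^ 2) :
    C * ∫ r in (0:ℝ)..R, r ^ (k + 2) * W (α - 1) r * v r ^ 2 ≤
      ∫ r in (0:ℝ)..R, r ^ (k + 2) * W α r * v' r ^ 2 := by
  have hWc := W_cont
  have cv : Continuous v := continuous_iff_continuousAt.2 fun r => (hv r).continuousAt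
  have main := ray hR (v := v) (v' := v') (A := fun r => r ^ (k + 2) * W α r)
    (P := fun r => -(2 * s) * (r ^ (k + 3) * W (α - 1) r))
    (P' := fun r => -(2 * s) * (((k + 3 : ℕ) : ℝ) * r ^ (k + 2) * W (α - 1) r +
      r ^ (k + 3) * (2 * (α - 1) * r * W (α - 1 - 1) r)))
    (Q := fun r => 4 * s ^ 2 * (r ^ (k + 4) * W (α - 2) r)) hv hv'
    ((continuous_pow _).mul (hWc _)) (fun r => by
      have h := ((hasDerivAt_pow (k + 3) r).mul (W_deriv (α - 1) r)).const_mul (-(2 * s))
      exact h)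
    (by
      have c1 := hWc (α - 1)
      have c2 := hWc (α - 1 - 1)
      fun_prop)
    (by
      have c1 := hWc (α - 2)
      fun_prop)
    (fun r hr => mul_pos (pow_pos hr.1 _) (W_pos _ _))
    (fun r hr => by
      have e1 : W (α - 1) r * W (α - 1) r = W α r * W (α - 2) r := by
        rw [← W_add, ← W_add]; ring_nf
      apply le_of_eq
      calc (-(2 * s) * (r ^ (k + 3) * W (α - 1) r)) ^ 2
          = 4 * s ^ 2 * (r ^ (k + 3)) ^ 2 * (W (α - 1) r * W (α - 1) r) := by ring
        _ = _ := by rw [e1]; ring)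
    (by simp) (by rw [h1]; simp)
  refine le_trans ?_ main
  rw [← intervalIntegral.integral_const_mul]
  apply intervalIntegral.integral_mono_on_of_le_Ioo hR
  · apply Continuous.intervalIntegrable
    have c1 := hWc (α - 1)
    fun_prop
  · apply Continuous.intervalIntegrable
    have c1 := hWc (α - 1)
    have c2 := hWc (α - 1 - 1)
    have c3 := hWc (α - 2)
    fun_prop
  · intro r hr
    have hr0 : 0 < r := hr.1
    have e1 : W (α - 1) r = W (α - 2) r * (1 + r ^ 2) := by
      rw [W_pred (α - 1)]; ring_nf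
    have e2 : W (α - 1 - 1) r = W (α - 2) r := by ring_nf
    rw [e2, e1]
    have h2 := mul_le_mul_of_nonneg_left (hC r)
      (by have := W_pos (α - 2) r; positivity : 0 ≤ r ^ (k + 2) * W (α - 2) r * v r ^ 2)
    push_cast
    calc C * (r ^ (k + 2) * (W (α - 2) r * (1 + r ^ 2)) * v r ^ 2)
        = r ^ (k + 2) * W (α - 2) r * v r ^ 2 * (C * (1 + r ^ 2)) := by ring
      _ ≤ _ := h2
      _ = _ := by ring

/-- the non radial part -/
theorem rayB (k : ℕ) {α R : ℝ} (hR : 0 ≤ R) {v v' : ℝ → ℝ}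
    (hv : ∀ r, HasDerivAt v (v' r) r) (hv' : Continuous v') (h1 : v R = 0) :
    (-2 * α) * ∫ r in (0:ℝ)..R, r ^ (k + 2) * W (α - 1) r * v r ^ 2 ≤
      (∫ r in (0:ℝ)..R, r ^ (k + 2) * W α r * v' r ^ 2) +
      (k + 2) * ∫ r in (0:ℝ)..R, r ^ k * W α r * v r ^ 2 := by
  have hWc := W_cont
  have cv : Continuous v := continuous_iff_continuousAt.2 fun r => (hv r).continuousAt
  have main := ray hR (v := v) (v' := v') (A := fun r => r ^ (k + 2) * W α r)
    (P := fun r => r ^ (k + 1) * W α r)
    (P' := fun r => ((k + 1 : ℕ) : ℝ) * r ^ k * W α r + r ^ (k + 1) * (2 * α * r * W (α - 1) r))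
    (Q := fun r => r ^ k * W α r) hv hv'
    ((continuous_pow _).mul (hWc _)) (fun r => by
      have h := ((hasDerivAt_pow (k + 1) r).mul (W_deriv α r))
      exact h)
    (by
      have c1 := hWc (α - 1)
      have c2 := hWc α
      fun_prop)
    (by
      have c1 := hWc α
      fun_prop)
    (fun r hr => mul_pos (pow_pos hr.1 _) (W_pos _ _))
    (fun r hr => le_of_eq (by ring))
    (by simp) (by rw [h1]; simp)
  have hc1 : Continuous fun r : ℝ => r ^ k * W α r * v r ^ 2 := by
    have c1 := hWc α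
    fun_prop
  have hc2 : Continuous fun r : ℝ => r ^ (k + 2) * W (α - 1) r * v r ^ 2 := by
    have c1 := hWc (α - 1)
    fun_prop
  have e : ∫ r in (0:ℝ)..R, (-(((k + 1 : ℕ) : ℝ) * r ^ k * W α r +
      r ^ (k + 1) * (2 * α * r * W (α - 1) r)) - r ^ k * W α r) * v r ^ 2 =
      (-2 * α) * (∫ r in (0:ℝ)..R, r ^ (k + 2) * W (α - 1) r * v r ^ 2) -
      (k + 2) * ∫ r in (0:ℝ)..R, r ^ k * W α r * v r ^ 2 := by
    rw [← intervalIntegral.integral_const_mul, ← intervalIntegral.integral_const_mul,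
      ← intervalIntegral.integral_sub]
    · apply intervalIntegral.integral_congr
      intro r _
      show _ = _
      push_cast
      ring
    · exact (hc2.const_mul _).intervalIntegrable _ _
    · exact (hc1.const_mul _).intervalIntegrable _ _
  rw [e] at main
  linarith

end Pool.Agent.Y243.HW
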