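import Mathlib
import Pool.Agent.Y243.HW.Polar
import Pool.Agent.H212R2.KLS.R4

set_option autoImplicit false

/-!
# The sharp Poincare inequality on the sphere
-/

namespace Pool.Agent.Y243.HW

open MeasureTheory Set Filter Topology Metric
open scoped ENNReal NNReal RealInnerProductSpace

variable {n : ℕ}

/-- derivative of the norm -/
theorem hasFDerivAt_nrm {x : E n} (hx : x ≠ 0) :
    HasFDerivAt (fun y : E n => ‖y‖) (‖x‖⁻¹ • innerSL ℝ x) x := by
  have h1 : HasFDerivAt (fun x : E n => ‖x‖ ^ 2) (2 • (innerSL ℝ x)) x :=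
    (hasStrictFDerivAt_norm_sq x).hasFDerivAt
  have hx' : ‖x‖ ^ 2 ≠ 0 := by
    have : ‖x‖ ≠ 0 := norm_ne_zero_iff.2 hx
    positivity
  have h2 := h1.sqrt hx'
  have h3 : (fun y : E n => ‖y‖) = fun y : E n => Real.sqrt (‖y‖ ^ 2) := by
    funext y
    rw [Real.sqrt_sq (norm_nonneg _)]
  rw [h3]
  refine h2.congr_fderiv ?_
  rw [Real.sqrt_sq (norm_nonneg _)]
  ext h
  simp
  ring

/-- tangential part of the squared gradient at a point of the unit sphere -/
noncomputable def tang (f : E n → ℝ) (θ : E n) : ℝ :=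
  ‖fderiv ℝ f θ‖ ^ 2 - (fderiv ℝ f θ θ) ^ 2

theorem tang_nonneg (L : E n →L[ℝ] ℝ) {θ : E n} (hθ : ‖θ‖ = 1) : 0 ≤ ‖L‖ ^ 2 - (L θ) ^ 2 := by
  have h := L.le_opNorm θ
  rw [hθ, mul_one, Real.norm_eq_abs] at h
  have := pow_le_pow_left₀ (abs_nonneg _) h 2
  rw [sq_abs] at this
  linarith

/-- a functional restricted to the orthogonal complement of a unit vector -/
theorem tang_bound (L : E n →L[ℝ] ℝ) {θ : E n} (hθ : ‖θ‖ = 1) (h : E n) :
    (L (h - ⟪θ, h⟫ • θ)) ^ 2 ≤ (‖L‖ ^ 2 - (L θ) ^ 2) * (‖h‖ ^ 2 - ⟪θ, h⟫ ^ 2) := by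
  obtain ⟨g, hg⟩ := (InnerProductSpace.toDual ℝ (E n)).surjective L
  have hL : ∀ y, L y = ⟪g, y⟫ := by
    intro y
    rw [← hg]
    simp
  have hn : ‖L‖ = ‖g‖ := by
    rw [← hg]
    simp
  have hθθ : ⟪θ, θ⟫ = 1 := by
    rw [real_inner_self_eq_norm_sq, hθ]
    norm_num
  have h1 : L (h - ⟪θ, h⟫ • θ) = ⟪g - ⟪g, θ⟫ • θ, h - ⟪θ, h⟫ • θ⟫ := by
    rw [hL]
    simp only [inner_sub_left, inner_sub_right, inner_smul_left, inner_smul_right, hθθ]
    simp only [conj_trivial]
    ring
  have h2 : ‖g - ⟪g, θ⟫ • θ‖ ^ 2 = ‖g‖ ^ 2 - ⟪g, θ⟫ ^ 2 := by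
    rw [← real_inner_self_eq_norm_sq]
    simp only [inner_sub_left, inner_sub_right, inner_smul_left, inner_smul_right, hθθ]
    simp only [conj_trivial, real_inner_self_eq_norm_sq]
    rw [real_inner_comm θ g]
    ring
  have h3 : ‖h - ⟪θ, h⟫ • θ‖ ^ 2 = ‖h‖ ^ 2 - ⟪θ, h⟫ ^ 2 := by
    rw [← real_inner_self_eq_norm_sq]
    simp only [inner_sub_left, inner_sub_right, inner_smul_left, inner_smul_right, hθθ]
    simp only [conj_trivial, real_inner_self_eq_norm_sq]
    rw [real_inner_comm h θ]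
    ring
  rw [h1, hn, hL, ← h2, ← h3]
  have h4 := abs_real_inner_le_norm (g - ⟪g, θ⟫ • θ) (h - ⟪θ, h⟫ • θ)
  have h5 := pow_le_pow_left₀ (abs_nonneg _) h4 2
  rw [sq_abs] at h5
  calc _ ≤ _ := h5
    _ = _ := by ring

/-- the cut-off profile -/
noncomputable def prof (e : ℝ) (r : ℝ) : ℝ := ∫ s in (0:ℝ)..r, min 1 (max 0 (s / e - 1))

theorem prof_cont (e : ℝ) : Continuous fun s : ℝ => min 1 (max 0 (s / e - 1)) := by
  fun_prop

theorem prof_deriv (e r : ℝ) : HasDerivAt (prof e) (min 1 (max 0 (r / e - 1))) r :=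
  intervalIntegral.integral_hasDerivAt_right ((prof_cont e).intervalIntegrable _ _)
    ((prof_cont e).stronglyMeasurableAtFilter _ _) (prof_cont e).continuousAt

theorem prof_contDiff (e : ℝ) : ContDiff ℝ 1 (prof e) := by
  rw [contDiff_one_iff_deriv]
  refine ⟨fun r => (prof_deriv e r).differentiableAt, ?_⟩
  have : deriv (prof e) = fun r => min 1 (max 0 (r / e - 1)) := by
    funext r
    exact (prof_deriv e r).deriv
  rw [this]
  exact prof_cont e

theorem prof_zero {e r : ℝ} (he : 0 < e) (hr0 : 0 ≤ r) (hr : r ≤ e) : prof e r = 0 := by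
  unfold prof
  rw [intervalIntegral.integral_congr (g := fun _ => (0:ℝ))]
  · simp
  · intro s hs
    rw [uIcc_of_le hr0] at hs
    have h1 : s / e ≤ 1 := by
      rw [div_le_one he]
      exact hs.2.trans hr
    have h2 : max 0 (s / e - 1) = 0 := max_eq_left (by linarith)
    simp [h2]

theorem prof_nonneg {e r : ℝ} (hr0 : 0 ≤ r) : 0 ≤ prof e r := by
  unfold prof
  apply intervalIntegral.integral_nonneg hr0
  intro s _
  exact le_min zero_le_one (le_max_left _ _)

theorem prof_le {e r : ℝ} (hr0 : 0 ≤ r) : prof e r ≤ r := by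
  unfold prof
  calc ∫ s in (0:ℝ)..r, min 1 (max 0 (s / e - 1)) ≤ ∫ s in (0:ℝ)..r, (1:ℝ) := by
        apply intervalIntegral.integral_mono_on hr0 ((prof_cont e).intervalIntegrable _ _)
          (by simp)
        intro s _
        exact min_le_left _ _
    _ = r := by simp

theorem prof_ge {e r : ℝ} (he : 0 < e) (hr0 : 0 ≤ r) : r - 2 * e ≤ prof e r := by
  rcases le_total r (2 * e) with h | h
  · have := prof_nonneg (e := e) hr0
    linarith
  · have h1 : prof e r = prof e (2 * e) + ∫ s in (2 * e)..r, min 1 (max 0 (s / e - 1)) := by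
      unfold prof
      rw [intervalIntegral.integral_add_adjacent_intervals]
      · exact (prof_cont e).intervalIntegrable _ _
      · exact (prof_cont e).intervalIntegrable _ _
    have h2 : ∫ s in (2 * e)..r, min 1 (max 0 (s / e - 1)) = ∫ s in (2 * e)..r, (1:ℝ) := by
      apply intervalIntegral.integral_congr
      intro s hs
      rw [uIcc_of_le h] at hs
      have h3 : 2 ≤ s / e := by
        rw [le_div_iff₀ he]
        exact hs.1
      have h4 : max 0 (s / e - 1) = s / e - 1 := max_eq_right (by linarith)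
      simp only [h4]
      exact min_eq_left (by linarith)
    rw [h1, h2]
    have h5 := prof_nonneg (e := e) (r := 2 * e) (by positivity)
    simp
    linarith

/-- the extension of a function from the sphere -/
noncomputable def ext0 (e : ℝ) (f : E n → ℝ) (x : E n) : ℝ := prof e ‖x‖ * f (‖x‖⁻¹ • x)

theorem ext0_contDiff {e : ℝ} (he : 0 < e) {f : E n → ℝ} (hf : ContDiff ℝ 1 f) :
    ContDiff ℝ 1 (ext0 e f) := by
  rw [contDiff_iff_contDiffAt]
  intro x
  by_cases hx : x = 0
  · have h0 : (fun _ : E n => (0:ℝ)) =ᶠ[𝓝 x] ext0 e f := by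
      have : ball (0 : E n) e ∈ 𝓝 x := by
        rw [hx]
        exact ball_mem_nhds _ he
      filter_upwards [this] with y hy
      rw [mem_ball_zero_iff] at hy
      unfold ext0
      rw [prof_zero he (norm_nonneg _) hy.le, zero_mul]
    exact contDiffAt_const.congr_of_eventuallyEq h0.symm
  · have h1 : ContDiffAt ℝ 1 (fun y : E n => ‖y‖) x := contDiffAt_norm ℝ hx
    have hx' : ‖x‖ ≠ 0 := norm_ne_zero_iff.2 hx
    have h2 : ContDiffAt ℝ 1 (fun y : E n => prof e ‖y‖) x :=
      (prof_contDiff e).contDiffAt.comp x h1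
    have h3 : ContDiffAt ℝ 1 (fun y : E n => ‖y‖⁻¹ • y) x := (h1.inv hx').smul contDiffAt_id
    have h4 : ContDiffAt ℝ 1 (fun y : E n => f (‖y‖⁻¹ • y)) x :=
      hf.contDiffAt.comp x h3
    exact h2.mul h4

theorem ext0_fderiv {e : ℝ} {f : E n → ℝ} (hf : ContDiff ℝ 1 f) {θ : E n}
    (hθ : ‖θ‖ = 1) {r : ℝ} (hr : 0 < r) (h : E n) :
    fderiv ℝ (ext0 e f) (r • θ) h = min 1 (max 0 (r / e - 1)) * ⟪θ, h⟫ * f θ +
      prof e r * (r⁻¹ * fderiv ℝ f θ (h - ⟪θ, h⟫ • θ)) := by
  have hθ0 : θ ≠ 0 := by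
    intro h0
    rw [h0, norm_zero] at hθ
    exact zero_ne_one hθ
  have hx : r • θ ≠ 0 := smul_ne_zero hr.ne' hθ0
  have hnx : ‖r • θ‖ = r := by
    rw [norm_smul, hθ, mul_one, Real.norm_of_nonneg hr.le]
  have h1 := hasFDerivAt_nrm hx
  rw [hnx] at h1
  have h2 : HasFDerivAt (fun y : E n => prof e ‖y‖)
      ((min 1 (max 0 (r / e - 1))) • (r⁻¹ • innerSL ℝ (r • θ))) (r • θ) := by
    have h3 := prof_deriv e ‖r • θ‖
    have h4 := h3.comp_hasFDerivAt (r • θ) h1
    rw [hnx] at h4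
    exact h4
  have h3 : HasFDerivAt (fun y : E n => ‖y‖⁻¹)
      ((-(r ^ 2)⁻¹) • (r⁻¹ • innerSL ℝ (r • θ))) (r • θ) := by
    have h5 : HasDerivAt (fun t : ℝ => t⁻¹) (-(‖r • θ‖ ^ 2)⁻¹) ‖r • θ‖ :=
      hasDerivAt_inv (by rw [hnx]; exact hr.ne')
    have h6 := h5.comp_hasFDerivAt (r • θ) h1
    rw [hnx] at h6
    exact h6
  have h4 : HasFDerivAt (fun y : E n => ‖y‖⁻¹ • y) _ (r • θ) :=
    h3.smul (hasFDerivAt_id (𝕜 := ℝ) (r • θ))
  have h5 : HasFDerivAt f (fderiv ℝ f θ) (‖r • θ‖⁻¹ • (r • θ)) := by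
    rw [hnx, smul_smul, inv_mul_cancel₀ hr.ne', one_smul]
    exact (hf.differentiable (by norm_num) θ).hasFDerivAt
  have h6 : HasFDerivAt (fun y : E n => f (‖y‖⁻¹ • y)) _ (r • θ) :=
    HasFDerivAt.comp (f := fun y : E n => ‖y‖⁻¹ • y) (r • θ) h5 h4
  have h7 := h2.mul h6
  have h8 : HasFDerivAt (ext0 e f) _ (r • θ) := h7
  rw [h8.fderiv]
  simp only [ContinuousLinearMap.add_apply, ContinuousLinearMap.smul_apply,
    ContinuousLinearMap.comp_apply, ContinuousLinearMap.smulRight_apply, Function.comp_apply, hnx,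
    innerSL_apply_apply, smul_eq_mul, id_eq, ContinuousLinearMap.coe_id', real_inner_smul_left,
    smul_smul, inv_mul_cancel₀ hr.ne', one_smul]
  have h9 : fderiv ℝ f θ (r⁻¹ • h + (-(r ^ 2)⁻¹ * r⁻¹ * (r * ⟪θ, h⟫) * r) • θ) =
      r⁻¹ * fderiv ℝ f θ (h - ⟪θ, h⟫ • θ) := by
    rw [map_add, map_sub, map_smul, map_smul, map_smul]
    simp only [smul_eq_mul]
    field_simp
    ring
  rw [h9]
  field_simp
  ring

theorem ext0_fderiv_norm {e : ℝ} {f : E n → ℝ} (hf : ContDiff ℝ 1 f) {θ : E n}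
    (hθ : ‖θ‖ = 1) {r : ℝ} (hr : 0 < r) :
    ‖fderiv ℝ (ext0 e f) (r • θ)‖ ^ 2 ≤ f θ ^ 2 + tang f θ := by
  have hT : 0 ≤ tang f θ := tang_nonneg _ hθ
  have hA : 0 ≤ f θ ^ 2 + tang f θ := by positivity
  have hb : ‖fderiv ℝ (ext0 e f) (r • θ)‖ ≤ Real.sqrt (f θ ^ 2 + tang f θ) := by
    apply ContinuousLinearMap.opNorm_le_bound _ (Real.sqrt_nonneg _)
    intro h
    rw [ext0_fderiv hf hθ hr h, Real.norm_eq_abs, ← Real.sqrt_sq (norm_nonneg h),
      ← Real.sqrt_mul hA]
    apply Real.abs_le_sqrt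
    have ht := tang_bound (fderiv ℝ f θ) hθ h
    set p := min 1 (max 0 (r / e - 1)) with hp
    have hp0 : 0 ≤ p := le_min zero_le_one (le_max_left _ _)
    have hp1 : p ≤ 1 := min_le_left _ _
    have hq0 : 0 ≤ prof e r * r⁻¹ := mul_nonneg (prof_nonneg hr.le) (inv_nonneg.2 hr.le)
    have hq1 : prof e r * r⁻¹ ≤ 1 := by
      rw [← div_eq_mul_inv, div_le_one hr]
      exact prof_le hr.le
    set q := prof e r * r⁻¹ with hq
    have hh : ⟪θ, h⟫ ^ 2 ≤ ‖h‖ ^ 2 := by
      have := abs_real_inner_le_norm θ h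
      rw [hθ, one_mul] at this
      have := pow_le_pow_left₀ (abs_nonneg _) this 2
      rwa [sq_abs] at this
    set L := fderiv ℝ f θ (h - ⟪θ, h⟫ • θ) with hL
    set a := ⟪θ, h⟫ with ha
    have hTT : ‖fderiv ℝ f θ‖ ^ 2 - fderiv ℝ f θ θ ^ 2 = tang f θ := rfl
    rw [hTT] at ht
    have e1 : p * a * f θ + prof e r * (r⁻¹ * L) = (p * a) * f θ + q * L := by
      rw [hq]; ring
    rw [e1]
    have hp2 : p ^ 2 ≤ 1 := pow_le_one₀ hp0 hp1
    have hq2 : q ^ 2 ≤ 1 := pow_le_one₀ hq0 hq1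
    -- (x f + y)^2 with y^2 ≤ T b, x^2 ≤ a^2
    have hb0 : 0 ≤ ‖h‖ ^ 2 - a ^ 2 := by linarith
    have e2 : (q * L) ^ 2 ≤ tang f θ * (‖h‖ ^ 2 - a ^ 2) := by
      calc (q * L) ^ 2 = q ^ 2 * L ^ 2 := by ring
        _ ≤ 1 * L ^ 2 := by gcongr
        _ ≤ _ := by linarith
    have e3 : (p * a) ^ 2 ≤ a ^ 2 := by
      calc (p * a) ^ 2 = p ^ 2 * a ^ 2 := by ring
        _ ≤ 1 * a ^ 2 := by gcongr
        _ = _ := by ring
    set X := p * a
    set Y := q * L
    have e4 : (X * f θ * Y) ^ 2 ≤ a ^ 2 * f θ ^ 2 * (tang f θ * (‖h‖ ^ 2 - a ^ 2)) := by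
      calc (X * f θ * Y) ^ 2 = X ^ 2 * f θ ^ 2 * Y ^ 2 := by ring
        _ ≤ a ^ 2 * f θ ^ 2 * (tang f θ * (‖h‖ ^ 2 - a ^ 2)) := by
          gcongr
    have e5 : 2 * (X * f θ * Y) ≤ a ^ 2 * tang f θ + f θ ^ 2 * (‖h‖ ^ 2 - a ^ 2) := by
      have h10 : 0 ≤ a ^ 2 * tang f θ + f θ ^ 2 * (‖h‖ ^ 2 - a ^ 2) := by positivity
      refine (le_abs_self _).trans (abs_le_of_sq_le_sq ?_ h10)
      nlinarith [sq_nonneg (a ^ 2 * tang f θ - f θ ^ 2 * (‖h‖ ^ 2 - a ^ 2))]
    have e6 : X ^ 2 * f θ ^ 2 ≤ a ^ 2 * f θ ^ 2 := by gcongr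
    nlinarith
  calc ‖fderiv ℝ (ext0 e f) (r • θ)‖ ^ 2 ≤ (Real.sqrt (f θ ^ 2 + tang f θ)) ^ 2 := by
        gcongr
    _ = _ := Real.sq_sqrt hA

/-- truncated Gaussian weight -/
noncomputable def gw (R : ℝ) (x : E n) : ℝ := if ‖x‖ ≤ R then Real.exp (-(‖x‖ ^ 2 / 2)) else 0

theorem gw_nonneg (R : ℝ) (x : E n) : 0 ≤ gw R x := by
  unfold gw
  split_ifs
  · exact (Real.exp_pos _).le
  · exact le_rfl

theorem gw_le_one (R : ℝ) (x : E n) : gw R x ≤ 1 := by
  unfold gw
  split_ifs
  · rw [Real.exp_le_one_iff]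
    have := sq_nonneg ‖x‖
    linarith
  · exact zero_le_one

theorem gw_meas (R : ℝ) : Measurable (gw (n := n) R) := by
  unfold gw
  apply Measurable.ite
  · exact measurableSet_le measurable_norm measurable_const
  · fun_prop
  · exact measurable_const

theorem gw_mid (R : ℝ) (x y : E n) : gw R x * gw R y ≤
    (gw R ((1 / 2 : ℝ) • (x + y))) ^ 2 * Real.exp (-(1 / 4 * ‖x - y‖ ^ 2)) := by
  by_cases hx : ‖x‖ ≤ R
  · by_cases hy : ‖y‖ ≤ R
    · have hm : ‖(1 / 2 : ℝ) • (x + y)‖ ≤ R := by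
        rw [norm_smul]
        have := norm_add_le x y
        rw [Real.norm_of_nonneg (by norm_num)]
        linarith
      unfold gw
      rw [if_pos hx, if_pos hy, if_pos hm, ← Real.exp_add, ← Real.exp_nat_mul, ← Real.exp_add]
      apply Real.exp_le_exp.2
      apply le_of_eq
      rw [norm_smul, mul_pow, Real.norm_of_nonneg (by norm_num : (0:ℝ) ≤ 1 / 2),
        norm_add_sq_real, norm_sub_sq_real]
      push_cast
      ring
    · have : gw R y = 0 := by
        unfold gw
        rw [if_neg hy]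
      rw [this, mul_zero]
      positivity
  · have : gw R x = 0 := by
      unfold gw
      rw [if_neg hx]
    rw [this, zero_mul]
    positivity

/-- continuous functions times the weight are integrable -/
theorem gw_int (R : ℝ) {φ : E n → ℝ} (hφ : Continuous φ) : Integrable (fun x => φ x * gw R x) :=
  Pool.Agent.H212R2.KLS.R4aux.intg (gw_meas R) (gw_nonneg R) ⟨1, gw_le_one R⟩ (R := R)
    (fun x hx => by
      unfold gw
      rw [if_neg (not_le.2 hx)]) hφ

/-- the one dimensional Gaussian moments -/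
noncomputable def gm (R : ℝ) (k : ℕ) : ℝ := ∫ r in (0:ℝ)..R, r ^ k * Real.exp (-(r ^ 2 / 2))

theorem gm_rec (R : ℝ) (k : ℕ) : gm R (k + 2) = (k + 1) * gm R k -
    R ^ (k + 1) * Real.exp (-(R ^ 2 / 2)) := by
  have h1 : ∀ r : ℝ, HasDerivAt (fun r : ℝ => -(r ^ (k + 1) * Real.exp (-(r ^ 2 / 2))))
      (r ^ (k + 2) * Real.exp (-(r ^ 2 / 2)) - (k + 1) * (r ^ k * Real.exp (-(r ^ 2 / 2)))) r := by
    intro r
    have h2 : HasDerivAt (fun r : ℝ => r ^ (k + 1)) (((k + 1 : ℕ) : ℝ) * r ^ k) r := by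
      have := hasDerivAt_pow (k + 1) r
      simpa using this
    have h3 : HasDerivAt (fun r : ℝ => -(r ^ 2 / 2)) (-r) r := by
      have := ((hasDerivAt_pow 2 r).div_const 2).fun_neg
      refine this.congr_deriv ?_
      simp
    have h4 := (h2.fun_mul h3.exp).fun_neg
    refine h4.congr_deriv ?_
    push_cast
    ring
  have h2 := intervalIntegral.integral_eq_sub_of_hasDerivAt (a := 0) (b := R)
    (fun r _ => h1 r) (by
      apply Continuous.intervalIntegrable
      fun_prop)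
  rw [intervalIntegral.integral_sub, intervalIntegral.integral_const_mul] at h2
  · unfold gm
    simp at h2
    linarith
  · apply Continuous.intervalIntegrable
    fun_prop
  · apply Continuous.intervalIntegrable
    fun_prop

theorem gm_pos {R : ℝ} (hR : 0 < R) (k : ℕ) : 0 < gm R k := by
  unfold gm
  apply intervalIntegral.intervalIntegral_pos_of_pos_on
  · apply Continuous.intervalIntegrable
    fun_prop
  · intro r hr
    have := hr.1
    positivity
  · exact hR

theorem gm_mono {R : ℝ} (hR : 1 ≤ R) (k : ℕ) : gm 1 k ≤ gm R k := by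
  unfold gm
  rw [← intervalIntegral.integral_add_adjacent_intervals (b := 1) (c := R)]
  · have : 0 ≤ ∫ r in (1:ℝ)..R, r ^ k * Real.exp (-(r ^ 2 / 2)) := by
      apply intervalIntegral.integral_nonneg hR
      intro r hr
      have := hr.1
      positivity
    linarith
  · apply Continuous.intervalIntegrable
    fun_prop
  · apply Continuous.intervalIntegrable
    fun_prop

theorem sph_cont_int {g : E n → ℝ} (hg : Continuous g) :
    Integrable (fun v : sphere (0 : E n) 1 => g v) (sg n) := by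
  have h1 : Continuous (fun v : sphere (0 : E n) 1 => g v) := hg.comp continuous_subtype_val
  have h2 : IsCompact (univ : Set (sphere (0 : E n) 1)) := isCompact_univ
  have := h1.continuousOn.integrableOn_compact (μ := sg n) h2
  rwa [integrableOn_univ] at this

theorem tang_cont {f : E n → ℝ} (hf : ContDiff ℝ 1 f) : Continuous (tang f) := by
  unfold tang
  have h1 : Continuous (fderiv ℝ f) := hf.continuous_fderiv (by norm_num)
  have h2 : Continuous fun θ : E n => fderiv ℝ f θ θ := h1.clm_apply continuous_id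
  fun_prop

/-- intermediate inequality with finite radius -/
theorem sphere_aux (k : ℕ) {f : E (k + 1) → ℝ} (hf : ContDiff ℝ 1 f)
    (h0 : ∫ v : sphere (0 : E (k + 1)) 1, f v ∂(sg (k + 1)) = 0) {R e : ℝ} (hR : 0 < R)
    (he : 0 < e) :
    (gm R (k + 2) - 4 * e * gm R (k + 1)) * ∫ v : sphere (0 : E (k + 1)) 1, f v ^ 2 ∂(sg (k + 1)) ≤
      gm R k * ∫ v : sphere (0 : E (k + 1)) 1, (f v ^ 2 + tang f v) ∂(sg (k + 1)) := by
  have hF := ext0_contDiff he hf
  obtain ⟨c, hc⟩ := Pool.Agent.H212R2.KLS.poincare_of_strong (volume : Measure (E (k + 1)))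
    (gw R) (gw_nonneg R) (gw_meas R) ⟨1, gw_le_one R⟩
    ⟨R, fun x hx => by
      unfold gw
      rw [if_neg (not_le.2 hx)]⟩ 1 one_pos (fun x y => gw_mid R x y) (ext0 e f) hF
  rw [inv_one, one_mul] at hc
  have hgw : ∀ x : E (k + 1), R < ‖x‖ → gw R x = 0 := by
    intro x hx
    unfold gw
    rw [if_neg (not_le.2 hx)]
  have hgr : ∀ v : sphere (0 : E (k + 1)) 1, ∀ r ∈ Icc (0:ℝ) R, gw R (r • (v : E (k + 1))) =
      Real.exp (-(r ^ 2 / 2)) := by
    intro v r hr
    have : ‖r • (v : E (k + 1))‖ = r := by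
      rw [norm_smul, norm_sph, mul_one, Real.norm_of_nonneg hr.1]
    unfold gw
    rw [this, if_pos hr.2]
  have hext : ∀ v : sphere (0 : E (k + 1)) 1, ∀ r ∈ Icc (0:ℝ) R, ext0 e f (r • (v : E (k + 1))) =
      prof e r * f v := by
    intro v r hr
    have : ‖r • (v : E (k + 1))‖ = r := by
      rw [norm_smul, norm_sph, mul_one, Real.norm_of_nonneg hr.1]
    unfold ext0
    rw [this]
    rcases hr.1.eq_or_lt with h | h
    · rw [← h, prof_zero he le_rfl he.le, zero_mul, zero_mul]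
    · rw [smul_smul, inv_mul_cancel₀ h.ne', one_smul]
  have hFc : Continuous (ext0 e f) := hF.continuous
  have hFc2 : Continuous fun x => ext0 e f x ^ 2 := by fun_prop
  -- mean zero
  have hmean : ∫ x, ext0 e f x * gw R x = 0 := by
    rw [polarR (by omega) (gw_int R hFc) hR.le (fun x hx => by rw [hgw x hx, mul_zero])]
    have : ∀ v : sphere (0 : E (k + 1)) 1,
        (∫ r in (0:ℝ)..R, r ^ (k + 1 - 1) * (ext0 e f (r • (v : E (k + 1))) *
          gw R (r • (v : E (k + 1))))) =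
        (∫ r in (0:ℝ)..R, r ^ k * (prof e r * Real.exp (-(r ^ 2 / 2)))) * f v := by
      intro v
      rw [← intervalIntegral.integral_mul_const]
      apply intervalIntegral.integral_congr
      intro r hr
      rw [uIcc_of_le hR.le] at hr
      simp only [Nat.add_sub_cancel]
      rw [hgr v r hr, hext v r hr]
      ring
    rw [integral_congr_ae (Eventually.of_forall this), integral_const_mul, h0, mul_zero]
  -- the square
  have hprofc : Continuous (prof e) := (prof_contDiff e).continuous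
  have hsq : (gm R (k + 2) - 4 * e * gm R (k + 1)) *
      ∫ v : sphere (0 : E (k + 1)) 1, f v ^ 2 ∂(sg (k + 1)) ≤
      ∫ x, ext0 e f x ^ 2 * gw R x := by
    rw [polarR (by omega) (gw_int R hFc2) hR.le (fun x hx => by rw [hgw x hx, mul_zero])]
    have : ∀ v : sphere (0 : E (k + 1)) 1,
        (∫ r in (0:ℝ)..R, r ^ (k + 1 - 1) * (ext0 e f (r • (v : E (k + 1))) ^ 2 *
          gw R (r • (v : E (k + 1))))) =
        (∫ r in (0:ℝ)..R, r ^ k * (prof e r ^ 2 * Real.exp (-(r ^ 2 / 2)))) * f v ^ 2 := by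
      intro v
      rw [← intervalIntegral.integral_mul_const]
      apply intervalIntegral.integral_congr
      intro r hr
      rw [uIcc_of_le hR.le] at hr
      simp only [Nat.add_sub_cancel]
      rw [hgr v r hr, hext v r hr]
      ring
    rw [integral_congr_ae (Eventually.of_forall this), integral_const_mul]
    apply mul_le_mul_of_nonneg_right _ (integral_nonneg fun v => sq_nonneg _)
    unfold gm
    rw [← intervalIntegral.integral_const_mul, ← intervalIntegral.integral_sub]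
    · apply intervalIntegral.integral_mono_on hR.le
      · apply Continuous.intervalIntegrable
        fun_prop
      · apply Continuous.intervalIntegrable
        fun_prop
      · intro r hr
        have h1 : r ^ 2 - 4 * e * r ≤ prof e r ^ 2 := by
          have h2 := prof_ge he hr.1
          have h3 := prof_nonneg (e := e) hr.1
          rcases le_total r (2 * e) with h | h
          · have h4 : r ^ 2 - 4 * e * r ≤ 0 := by
              have : r * (4 * e - r) ≥ 0 := mul_nonneg hr.1 (by linarith)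
              nlinarith
            have := sq_nonneg (prof e r)
            linarith
          · have h4 : (r - 2 * e) ^ 2 ≤ prof e r ^ 2 := pow_le_pow_left₀ (by linarith) h2 2
            nlinarith [sq_nonneg e]
        have h5 : 0 ≤ r ^ k * Real.exp (-(r ^ 2 / 2)) := by
          have := hr.1
          positivity
        have h6 := mul_le_mul_of_nonneg_left h1 h5
        calc r ^ (k + 2) * Real.exp (-(r ^ 2 / 2)) -
              4 * e * (r ^ (k + 1) * Real.exp (-(r ^ 2 / 2))) =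
              r ^ k * Real.exp (-(r ^ 2 / 2)) * (r ^ 2 - 4 * e * r) := by ring
          _ ≤ _ := h6
          _ = _ := by ring
    · apply Continuous.intervalIntegrable
      fun_prop
    · apply Continuous.intervalIntegrable
      fun_prop
  -- the gradient
  have hgrad : ∫ x, ‖fderiv ℝ (ext0 e f) x‖ ^ 2 * gw R x ≤
      gm R k * ∫ v : sphere (0 : E (k + 1)) 1, (f v ^ 2 + tang f v) ∂(sg (k + 1)) := by
    have hDc : Continuous (fderiv ℝ (ext0 e f)) := hF.continuous_fderiv (by norm_num)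
    have hDc2 : Continuous fun x => ‖fderiv ℝ (ext0 e f) x‖ ^ 2 := by fun_prop
    rw [polarR (by omega) (gw_int R hDc2) hR.le (fun x hx => by rw [hgw x hx, mul_zero]),
      ← integral_const_mul]
    apply integral_mono_of_nonneg
    · refine Eventually.of_forall fun v => ?_
      apply intervalIntegral.integral_nonneg hR.le
      intro r hr
      have h1 := hr.1
      have h2 := gw_nonneg R (r • (v : E (k + 1)))
      positivity
    · apply Integrable.const_mul
      have hc1 : Continuous fun x : E (k + 1) => f x ^ 2 + tang f x := by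
        have h1 := hf.continuous
        have h2 := tang_cont hf
        fun_prop
      exact sph_cont_int hc1
    · refine Eventually.of_forall fun v => ?_
      show (∫ r in (0:ℝ)..R, r ^ (k + 1 - 1) * (‖fderiv ℝ (ext0 e f) (r • (v : E (k + 1)))‖ ^ 2 *
          gw R (r • (v : E (k + 1))))) ≤ gm R k * (f v ^ 2 + tang f v)
      have hv : ‖(v : E (k + 1))‖ = 1 := norm_sph v
      unfold gm
      rw [← intervalIntegral.integral_mul_const]
      rw [intervalIntegral.integral_of_le hR.le, intervalIntegral.integral_of_le hR.le]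
      apply integral_mono_of_nonneg
      · refine (ae_restrict_iff' measurableSet_Ioc).2 (Eventually.of_forall fun r hr => ?_)
        have h1 := hr.1
        have h2 := gw_nonneg R (r • (v : E (k + 1)))
        show (0:ℝ) ≤ _
        positivity
      · have : Continuous fun r : ℝ => r ^ k * Real.exp (-(r ^ 2 / 2)) *
            (f v ^ 2 + tang f v) := by fun_prop
        exact (this.integrableOn_Icc (a := 0) (b := R)).mono_set Ioc_subset_Icc_self
      · refine (ae_restrict_iff' measurableSet_Ioc).2 (Eventually.of_forall fun r hr => ?_)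
        show r ^ (k + 1 - 1) * (‖fderiv ℝ (ext0 e f) (r • (v : E (k + 1)))‖ ^ 2 *
          gw R (r • (v : E (k + 1)))) ≤ r ^ k * Real.exp (-(r ^ 2 / 2)) * (f v ^ 2 + tang f v)
        rw [hgr v r ⟨hr.1.le, hr.2⟩, Nat.add_sub_cancel]
        have h1 := ext0_fderiv_norm (e := e) hf hv hr.1
        have h5 : 0 ≤ r ^ k * Real.exp (-(r ^ 2 / 2)) := by
          have := hr.1
          positivity
        calc r ^ k * (‖fderiv ℝ (ext0 e f) (r • (v : E (k + 1)))‖ ^ 2 *
              Real.exp (-(r ^ 2 / 2))) = r ^ k * Real.exp (-(r ^ 2 / 2)) *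
              ‖fderiv ℝ (ext0 e f) (r • (v : E (k + 1)))‖ ^ 2 := by ring
          _ ≤ _ := mul_le_mul_of_nonneg_left h1 h5
  -- combine
  have hexp : ∫ x, (ext0 e f x - c) ^ 2 * gw R x = (∫ x, ext0 e f x ^ 2 * gw R x) +
      c ^ 2 * ∫ x : E (k + 1), gw R x := by
    have e1 : ∀ x : E (k + 1), (ext0 e f x - c) ^ 2 * gw R x =
        (ext0 e f x ^ 2 * gw R x + (-(2 * c)) * (ext0 e f x * gw R x)) + c ^ 2 * gw R x := by
      intro x; ring
    have i1 := gw_int R hFc2
    have i2 : Integrable (fun x : E (k + 1) => (-(2 * c)) * (ext0 e f x * gw R x)) :=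
      (gw_int R hFc).const_mul (-(2 * c))
    have i3 : Integrable (fun x : E (k + 1) => c ^ 2 * gw R x) :=
      gw_int R (φ := fun _ => c ^ 2) continuous_const
    have i12 : Integrable (fun x : E (k + 1) => ext0 e f x ^ 2 * gw R x +
        (-(2 * c)) * (ext0 e f x * gw R x)) := i1.add i2
    rw [integral_congr_ae (Eventually.of_forall e1)]
    rw [integral_add i12 i3]
    rw [integral_add i1 i2, integral_const_mul, integral_const_mul, hmean]
    simp
  have hw0 : 0 ≤ c ^ 2 * ∫ x : E (k + 1), gw R x :=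
    mul_nonneg (sq_nonneg _) (integral_nonneg (gw_nonneg R))
  linarith

/-- **Poincare inequality on the sphere** -/
theorem sphere_poincare (k : ℕ) {f : E (k + 1) → ℝ} (hf : ContDiff ℝ 1 f)
    (h0 : ∫ v : sphere (0 : E (k + 1)) 1, f v ∂(sg (k + 1)) = 0) :
    k * ∫ v : sphere (0 : E (k + 1)) 1, f v ^ 2 ∂(sg (k + 1)) ≤
      ∫ v : sphere (0 : E (k + 1)) 1, tang f v ∂(sg (k + 1)) := by
  set A := ∫ v : sphere (0 : E (k + 1)) 1, f v ^ 2 ∂(sg (k + 1)) with hA
  set T := ∫ v : sphere (0 : E (k + 1)) 1, tang f v ∂(sg (k + 1)) with hT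
  have hsum : ∫ v : sphere (0 : E (k + 1)) 1, (f v ^ 2 + tang f v) ∂(sg (k + 1)) = A + T :=
    integral_add (sph_cont_int (hf.continuous.pow 2)) (sph_cont_int (tang_cont hf))
  have hA0 : 0 ≤ A := integral_nonneg fun v => sq_nonneg _
  have h1 : ∀ R : ℝ, 0 < R → gm R (k + 2) * A ≤ gm R k * (A + T) := by
    intro R hR
    have h2 : ∀ e : ℝ, 0 < e → (gm R (k + 2) - 4 * e * gm R (k + 1)) * A ≤ gm R k * (A + T) := by
      intro e he
      have := sphere_aux k hf h0 hR he
      rwa [hsum] at this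
    have h3 : Tendsto (fun e : ℝ => (gm R (k + 2) - 4 * e * gm R (k + 1)) * A) (𝓝[>] 0)
        (𝓝 ((gm R (k + 2) - 4 * 0 * gm R (k + 1)) * A)) := by
      apply Tendsto.mono_left _ nhdsWithin_le_nhds
      apply Continuous.tendsto
      fun_prop
    have h4 := le_of_tendsto h3 (eventually_nhdsWithin_of_forall fun e he => h2 e he)
    simpa using h4
  by_contra hcon
  push Not at hcon
  set d := k * A - T with hd
  have hd0 : 0 < d := by linarith
  have h5 : ∀ R : ℝ, 1 ≤ R → gm 1 k * d ≤ R ^ (k + 1) * Real.exp (-(R ^ 2 / 2)) * A := by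
    intro R hR
    have h6 := h1 R (by linarith)
    rw [gm_rec] at h6
    have h7 := gm_mono hR k
    have h8 : gm 1 k * d ≤ gm R k * d := mul_le_mul_of_nonneg_right h7 hd0.le
    have h9 : gm R k * d = gm R k * (k * A) - gm R k * T := by rw [hd]; ring
    nlinarith
  have h6 : Tendsto (fun R : ℝ => R ^ (k + 1) * Real.exp (-(R ^ 2 / 2)) * A) atTop (𝓝 0) := by
    have h7 : Tendsto (fun R : ℝ => R ^ (k + 1) * Real.exp (-R)) atTop (𝓝 0) :=
      Real.tendsto_pow_mul_exp_neg_atTop_nhds_zero (k + 1)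
    have h8 : Tendsto (fun R : ℝ => R ^ (k + 1) * Real.exp (-(R ^ 2 / 2))) atTop (𝓝 0) := by
      apply squeeze_zero' _ _ h7
      · filter_upwards [eventually_ge_atTop 0] with R hR
        positivity
      · filter_upwards [eventually_ge_atTop 2] with R hR
        have : Real.exp (-(R ^ 2 / 2)) ≤ Real.exp (-R) := by
          apply Real.exp_le_exp.2
          nlinarith
        gcongr
    have := h8.mul_const A
    rwa [zero_mul] at this
  have h7 := ge_of_tendsto h6 ((eventually_ge_atTop 1).mono h5)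
  have h8 : 0 < gm 1 k * d := mul_pos (gm_pos one_pos k) hd0
  linarith

end Pool.Agent.Y243.HW
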