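import Mathlib
import Pool.Agent.Y243.HW.Polar
import Pool.Agent.Y243.HW.Ray
import Pool.Agent.Y243.HW.Radial
import Pool.Agent.Y243.HW.Sphere

set_option autoImplicit false

/-!
# Lower bounds
-/

namespace Pool.Agent.Y243.HW

open MeasureTheory Set Filter Topology Metric
open scoped ENNReal NNReal RealInnerProductSpace

variable {n : ℕ}

theorem dirD {u : E n → ℝ} (hu : ContDiff ℝ 1 u) (v : E n) (r : ℝ) :
    HasDerivAt (fun r : ℝ => u (r • v)) (fderiv ℝ u (r • v) v) r := by
  have h1 : HasDerivAt (fun r : ℝ => r • v) ((1:ℝ) • v) r := (hasDerivAt_id r).smul_const v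
  have h2 := (hu.differentiable (by norm_num) (r • v)).hasFDerivAt.comp_hasDerivAt r h1
  rw [one_smul] at h2
  exact h2

theorem dir_cont {u : E n → ℝ} (hu : ContDiff ℝ 1 u) :
    Continuous (fun p : E n × ℝ => fderiv ℝ u (p.2 • p.1) p.1) := by
  have h1 : Continuous (fderiv ℝ u) := hu.continuous_fderiv (by norm_num)
  have h2 : Continuous (fun p : E n × ℝ => fderiv ℝ u (p.2 • p.1)) :=
    h1.comp (continuous_snd.smul continuous_fst)
  exact h2.clm_apply continuous_fst

theorem Wn_cont (a : ℝ) : Continuous (fun x : E n => W a ‖x‖) := (W_cont a).comp continuous_norm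

/-- polar coordinates with weight -/
theorem polarG (k : ℕ) {R : ℝ} (hR : 0 ≤ R) {g : E (k + 3) → ℝ} (hg : Continuous g)
    (h0 : ∀ x, R < ‖x‖ → g x = 0) (a : ℝ) :
    ∫ x, W a ‖x‖ * g x = ∫ v : sphere (0 : E (k + 3)) 1,
      (∫ r in (0:ℝ)..R, r ^ (k + 2) * W a r * g (r • (v : E (k + 3)))) ∂(sg (k + 3)) := by
  have hc : Continuous fun x : E (k + 3) => W a ‖x‖ * g x := (Wn_cont a).mul hg
  have hsupp : HasCompactSupport fun x : E (k + 3) => W a ‖x‖ * g x := by
    apply HasCompactSupport.intro (isCompact_closedBall (0 : E (k + 3)) R)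
    intro x hx
    rw [mem_closedBall_zero_iff, not_le] at hx
    rw [h0 x hx, mul_zero]
  rw [polarR (by omega) (hc.integrable_of_hasCompactSupport hsupp) hR
    (fun x hx => by rw [h0 x hx, mul_zero])]
  refine integral_congr_ae (Eventually.of_forall fun v => ?_)
  apply intervalIntegral.integral_congr
  intro r hr
  rw [uIcc_of_le hR] at hr
  have h1 : ‖r • (v : E (k + 3))‖ = r := by
    rw [norm_smul, norm_sph, mul_one, Real.norm_of_nonneg hr.1]
  show r ^ (k + 3 - 1) * (W a ‖r • (v : E (k + 3))‖ * g (r • (v : E (k + 3)))) = _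
  rw [h1, show k + 3 - 1 = k + 2 from rfl]
  ring

theorem swap_int {R : ℝ} {G : sphere (0 : E n) 1 → ℝ → ℝ}
    (hG : Continuous (Function.uncurry G)) :
    Integrable (Function.uncurry G) ((sg n).prod (volume.restrict (Ioc 0 R))) := by
  have h1 : IntegrableOn (Function.uncurry G) (univ ×ˢ Icc 0 R) ((sg n).prod volume) :=
    hG.continuousOn.integrableOn_compact (isCompact_univ.prod isCompact_Icc)
  have h2 := h1.mono_set (prod_mono_right (Ioc_subset_Icc_self (a := (0:ℝ)) (b := R)))
  rw [IntegrableOn, ← Measure.prod_restrict, Measure.restrict_univ] at h2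
  exact h2

theorem swapS {R : ℝ} (hR : 0 ≤ R) {G : sphere (0 : E n) 1 → ℝ → ℝ}
    (hG : Continuous (Function.uncurry G)) :
    ∫ v, (∫ r in (0:ℝ)..R, G v r) ∂(sg n) = ∫ r in (0:ℝ)..R, (∫ v, G v r ∂(sg n)) := by
  simp_rw [intervalIntegral.integral_of_le hR]
  exact integral_integral_swap (swap_int hG)

theorem par_int {R : ℝ} (hR : 0 ≤ R) {G : sphere (0 : E n) 1 → ℝ → ℝ}
    (hG : Continuous (Function.uncurry G)) :
    Integrable (fun v => ∫ r in (0:ℝ)..R, G v r) (sg n) := by
  simp_rw [intervalIntegral.integral_of_le hR]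
  exact (swap_int hG).integral_prod_left

theorem sph_int_cont {G : sphere (0 : E n) 1 → ℝ → ℝ}
    (hG : Continuous (Function.uncurry G)) : Continuous fun r => ∫ v, G v r ∂(sg n) := by
  have h1 : Continuous (Function.uncurry fun (r : ℝ) (v : sphere (0 : E n) 1) => G v r) :=
    hG.comp (continuous_snd.prodMk continuous_fst)
  have h2 := continuous_parametric_integral_of_continuous (μ := sg n) h1
    (isCompact_univ (X := sphere (0 : E n) 1))
  simpa using h2

theorem sphI {g : sphere (0 : E n) 1 → ℝ} (hg : Continuous g) : Integrable g (sg n) := by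
  have := hg.continuousOn.integrableOn_compact (μ := sg n)
    (isCompact_univ (X := sphere (0 : E n) 1))
  rwa [integrableOn_univ] at this

theorem fderiv_zero_out {u : E n → ℝ} {R : ℝ} (h0 : ∀ x, R ≤ ‖x‖ → u x = 0) {x : E n}
    (hx : R < ‖x‖) : fderiv ℝ u x = 0 := by
  have h1 : u =ᶠ[𝓝 x] fun _ => 0 := by
    have : {y : E n | R < ‖y‖} ∈ 𝓝 x := (isOpen_lt continuous_const continuous_norm).mem_nhds hx
    filter_upwards [this] with y hy
    exact h0 y (le_of_lt hy)
  rw [h1.fderiv_eq]
  simp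

theorem dir_sq_le {u : E n → ℝ} (r : ℝ) (v : sphere (0 : E n) 1) :
    (fderiv ℝ u (r • (v : E n)) v) ^ 2 ≤ ‖fderiv ℝ u (r • (v : E n))‖ ^ 2 := by
  have := tang_nonneg (fderiv ℝ u (r • (v : E n))) (norm_sph v)
  linarith

/-- unconstrained lower bound -/
theorem lowerA (k : ℕ) {α s C R : ℝ} (hR : 0 ≤ R) (hC0 : 0 ≤ C) {u : E (k + 3) → ℝ}
    (hu : ContDiff ℝ 1 u) (h0 : ∀ x, R ≤ ‖x‖ → u x = 0)
    (hC : ∀ r : ℝ, C * (1 + r ^ 2) ≤
      2 * s * (k + 3) * (1 + r ^ 2) + 4 * s * (α - 1) * r ^ 2 - 4 * s ^ 2 * r ^ 2) :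
    C * ∫ x, W (α - 1) ‖x‖ * u x ^ 2 ≤ ∫ x, W α ‖x‖ * ‖fderiv ℝ u x‖ ^ 2 := by
  have hDc : Continuous (fderiv ℝ u) := hu.continuous_fderiv (by norm_num)
  have huc := hu.continuous
  rw [polarG k hR (g := fun x => u x ^ 2) (by fun_prop)
    (fun x hx => by simp [h0 x hx.le]),
    polarG k hR (g := fun x => ‖fderiv ℝ u x‖ ^ 2) (by fun_prop)
    (fun x hx => by simp [fderiv_zero_out h0 hx]), ← integral_const_mul]
  have hW := W_cont
  apply integral_mono_of_nonneg
  · refine Eventually.of_forall fun v => ?_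
    apply mul_nonneg hC0
    apply intervalIntegral.integral_nonneg hR
    intro r hr
    have := hr.1
    have := W_pos (α - 1) r
    positivity
  · apply par_int hR
    have h1 : Continuous fun p : sphere (0 : E (k + 3)) 1 × ℝ =>
        ‖fderiv ℝ u (p.2 • (p.1 : E (k + 3)))‖ ^ 2 := by fun_prop
    have h2 : Continuous fun p : sphere (0 : E (k + 3)) 1 × ℝ => p.2 ^ (k + 2) * W α p.2 := by
      have := hW α
      fun_prop
    exact h2.mul h1
  · refine Eventually.of_forall fun v => ?_
    have h1 := rayA k hR (dirD hu (v : E (k + 3)))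
      (by
        have h2 := dir_cont hu
        exact h2.comp (by fun_prop : Continuous fun r : ℝ => ((v : E (k + 3)), r)))
      (h0 _ (by rw [norm_smul, norm_sph, mul_one, Real.norm_of_nonneg hR])) hC
    refine h1.trans ?_
    apply intervalIntegral.integral_mono_on hR
    · apply Continuous.intervalIntegrable
      have h2 : Continuous fun r : ℝ => fderiv ℝ u (r • (v : E (k + 3))) v :=
        (dir_cont hu).comp (by fun_prop : Continuous fun r : ℝ => ((v : E (k + 3)), r))
      have h3 := hW α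
      fun_prop
    · apply Continuous.intervalIntegrable
      have h3 := hW α
      fun_prop
    · intro r hr
      have h4 := dir_sq_le (u := u) r v
      have h5 : 0 ≤ r ^ (k + 2) * W α r := by
        have := hr.1
        have := W_pos α r
        positivity
      exact mul_le_mul_of_nonneg_left h4 h5

/-- the spherical mean -/
noncomputable def smean (u : E n → ℝ) (r : ℝ) : ℝ :=
  ((sg n).real univ)⁻¹ * ∫ v : sphere (0 : E n) 1, u (r • (v : E n)) ∂(sg n)

/-- derivative of the spherical mean -/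
noncomputable def smeand (u : E n → ℝ) (r : ℝ) : ℝ :=
  ((sg n).real univ)⁻¹ * ∫ v : sphere (0 : E n) 1, fderiv ℝ u (r • (v : E n)) v ∂(sg n)

theorem smeand_cont {u : E n → ℝ} (hu : ContDiff ℝ 1 u) : Continuous (smeand u) := by
  unfold smeand
  apply Continuous.mul continuous_const
  apply sph_int_cont (G := fun (v : sphere (0 : E n) 1) (r : ℝ) => fderiv ℝ u (r • (v : E n)) v)
  exact (dir_cont hu).comp
    (by fun_prop : Continuous fun p : sphere (0 : E n) 1 × ℝ => ((p.1 : E n), p.2))

theorem smean_deriv {u : E n → ℝ} (hu : ContDiff ℝ 1 u) {B : ℝ} (hB : ∀ x, ‖fderiv ℝ u x‖ ≤ B)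
    (r : ℝ) : HasDerivAt (smean u) (smeand u r) r := by
  unfold smean smeand
  apply HasDerivAt.const_mul
  refine (hasDerivAt_integral_of_dominated_loc_of_deriv_le (μ := sg n)
    (F := fun r (v : sphere (0 : E n) 1) => u (r • (v : E n)))
    (F' := fun r (v : sphere (0 : E n) 1) => fderiv ℝ u (r • (v : E n)) v)
    (bound := fun _ => B) (s := univ) univ_mem ?_ ?_ ?_ ?_ ?_ ?_).2
  · refine Eventually.of_forall fun t => ?_
    have : Continuous fun v : sphere (0 : E n) 1 => u (t • (v : E n)) := by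
      have := hu.continuous
      fun_prop
    exact this.aestronglyMeasurable
  · have : Continuous fun v : sphere (0 : E n) 1 => u (r • (v : E n)) := by
      have := hu.continuous
      fun_prop
    exact sphI this
  · have : Continuous fun v : sphere (0 : E n) 1 => fderiv ℝ u (r • (v : E n)) v :=
      (dir_cont hu).comp (by fun_prop : Continuous fun v : sphere (0 : E n) 1 => ((v : E n), r))
    exact this.aestronglyMeasurable
  · refine Eventually.of_forall fun v t _ => ?_
    have := (fderiv ℝ u (t • (v : E n))).le_opNorm (v : E n)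
    rw [norm_sph, mul_one] at this
    exact this.trans (hB _)
  · exact integrable_const _
  · exact Eventually.of_forall fun v t _ => dirD hu (v : E n) t

theorem sg_pos (k : ℕ) : 0 < (sg (k + 1)).real univ := by
  have : Nontrivial (E (k + 1)) := by infer_instance
  have h1 : (sg (k + 1)) univ ≠ 0 := by
    rw [Measure.toSphere_apply_univ]
    have h2 : (volume : Measure (E (k + 1))) (ball 0 1) ≠ 0 := (measure_ball_pos _ _ one_pos).ne'
    have h3 : (Module.finrank ℝ (E (k + 1)) : ℝ≥0∞) ≠ 0 := by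
      rw [finrank_euclideanSpace_fin]
      exact_mod_cast Nat.succ_ne_zero k
    exact mul_ne_zero h3 h2
  have h2 : (sg (k + 1)) univ ≠ ⊤ := measure_ne_top _ _
  exact ENNReal.toReal_pos h1 h2

/-- decomposition of a square integral into mean and deviation -/
theorem sph_decomp (k : ℕ) {g : sphere (0 : E (k + 1)) 1 → ℝ} (hg : Continuous g) {m : ℝ}
    (hm : m = ((sg (k + 1)).real univ)⁻¹ * ∫ v, g v ∂(sg (k + 1))) :
    ∫ v, g v ^ 2 ∂(sg (k + 1)) = (sg (k + 1)).real univ * m ^ 2 +
      ∫ v, (g v - m) ^ 2 ∂(sg (k + 1)) := by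
  have hs := sg_pos k
  have e1 : ∀ v, (g v - m) ^ 2 = (g v ^ 2 + (-(2 * m)) * g v) + m ^ 2 := by
    intro v; ring
  have i1 : Integrable (fun v => g v ^ 2) (sg (k + 1)) := sphI (by fun_prop)
  have i2 : Integrable (fun v => (-(2 * m)) * g v) (sg (k + 1)) := sphI (by fun_prop)
  have i12 : Integrable (fun v => g v ^ 2 + (-(2 * m)) * g v) (sg (k + 1)) := i1.add i2
  have h2 : ∫ v, g v ∂(sg (k + 1)) = (sg (k + 1)).real univ * m := by
    rw [hm, ← mul_assoc, mul_inv_cancel₀ hs.ne', one_mul]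
  rw [integral_congr_ae (Eventually.of_forall e1), integral_add i12 (integrable_const _),
    integral_add i1 i2, integral_const_mul, h2, integral_const, smul_eq_mul]
  ring

theorem sph_tangential (k : ℕ) {u : E (k + 3) → ℝ} (hu : ContDiff ℝ 1 u) (r : ℝ) :
    (k + 2) * ∫ v : sphere (0 : E (k + 3)) 1, (u (r • (v : E (k + 3))) - smean u r) ^ 2
        ∂(sg (k + 3)) ≤
      r ^ 2 * ∫ v : sphere (0 : E (k + 3)) 1, (‖fderiv ℝ u (r • (v : E (k + 3)))‖ ^ 2 -
        (fderiv ℝ u (r • (v : E (k + 3))) v) ^ 2) ∂(sg (k + 3)) := by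
  have huc := hu.continuous
  have hf : ContDiff ℝ 1 (fun x : E (k + 3) => u (r • x) - smean u r) := by
    apply ContDiff.sub _ contDiff_const
    exact hu.comp (contDiff_const_smul r)
  have hs := sg_pos (k + 2)
  have i1 : Integrable (fun v : sphere (0 : E (k + 3)) 1 => u (r • (v : E (k + 3))))
      (sg (k + 3)) := sphI (by fun_prop)
  have hz : ∫ v : sphere (0 : E (k + 3)) 1, (u (r • (v : E (k + 3))) - smean u r)
      ∂(sg (k + 3)) = 0 := by
    rw [integral_sub i1 (integrable_const _), integral_const, smul_eq_mul]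
    unfold smean
    rw [← mul_assoc, mul_inv_cancel₀ hs.ne', one_mul, sub_self]
  have h1 := sphere_poincare (k + 2) hf hz
  push_cast at h1
  rw [← integral_const_mul (r ^ 2)]
  refine h1.trans (le_of_eq ?_)
  refine integral_congr_ae (Eventually.of_forall fun v => ?_)
  show tang (fun x : E (k + 3) => u (r • x) - smean u r) v = _
  unfold tang
  have h2 : fderiv ℝ (fun x : E (k + 3) => u (r • x) - smean u r) (v : E (k + 3)) =
      r • fderiv ℝ u (r • (v : E (k + 3))) := by
    rw [fderiv_sub_const]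
    exact fderiv_comp_smul (𝕜 := ℝ) (f := u) (x := (v : E (k + 3))) (c := r)
  rw [h2, norm_smul, mul_pow, Real.norm_eq_abs, sq_abs]
  show r ^ 2 * ‖fderiv ℝ u (r • (v : E (k + 3)))‖ ^ 2 -
    (r * fderiv ℝ u (r • (v : E (k + 3))) v) ^ 2 = _
  ring

/-- lower bound under the orthogonality constraint -/
theorem lowerB (k : ℕ) {α κ C c R C' : ℝ} (hR : 0 < R) (hC0 : 0 ≤ C) {u : E (k + 3) → ℝ}
    (hu : ContDiff ℝ 1 u) (h0 : ∀ x, R ≤ ‖x‖ → u x = 0)
    (hc : c = (k + 3) + 2 * α - 2 * κ)
    (hC : ∀ r : ℝ, C * (1 + r ^ 2) ≤ 2 * κ * ((k + 3) + c * r ^ 2) - 2 * c * (1 + r ^ 2))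
    (hC1 : C' ≤ C) (hC2 : C' ≤ -2 * α)
    (hmean : ∫ x, W (α - 1) ‖x‖ * u x = 0) :
    C' * ∫ x, W (α - 1) ‖x‖ * u x ^ 2 ≤ ∫ x, W α ‖x‖ * ‖fderiv ℝ u x‖ ^ 2 := by
  have hDc : Continuous (fderiv ℝ u) := hu.continuous_fderiv (by norm_num)
  have huc := hu.continuous
  have hW := W_cont
  have hsupp : HasCompactSupport (fun x => ‖fderiv ℝ u x‖) := by
    apply HasCompactSupport.intro (isCompact_closedBall (0 : E (k + 3)) R)
    intro x hx
    rw [mem_closedBall_zero_iff, not_le] at hx
    rw [fderiv_zero_out h0 hx, norm_zero]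
  obtain ⟨B, hB⟩ := hDc.norm.bounded_above_of_compact_support hsupp
  have hB' : ∀ x, ‖fderiv ℝ u x‖ ≤ B := fun x => by
    have := hB x
    rwa [norm_norm] at this
  set y := smean u with hy
  set y' := smeand u with hy'
  have hyd : ∀ r, HasDerivAt y (y' r) r := smean_deriv hu hB'
  have cy' : Continuous y' := smeand_cont hu
  have cy : Continuous y := continuous_iff_continuousAt.2 fun r => (hyd r).continuousAt
  have hs := sg_pos (k + 2)
  set σ := (sg (k + 3)).real univ with hσ
  -- continuity of the relevant functions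
  have cU : Continuous fun p : sphere (0 : E (k + 3)) 1 × ℝ => u (p.2 • (p.1 : E (k + 3))) := by
    fun_prop
  have cD : Continuous fun p : sphere (0 : E (k + 3)) 1 × ℝ =>
      fderiv ℝ u (p.2 • (p.1 : E (k + 3))) p.1 := (dir_cont hu).comp
    (by fun_prop : Continuous fun p : sphere (0 : E (k + 3)) 1 × ℝ => ((p.1 : E (k + 3)), p.2))
  have cN : Continuous fun p : sphere (0 : E (k + 3)) 1 × ℝ =>
      ‖fderiv ℝ u (p.2 • (p.1 : E (k + 3)))‖ ^ 2 := by fun_prop
  have cy2 : Continuous fun p : sphere (0 : E (k + 3)) 1 × ℝ => y p.2 := cy.comp continuous_snd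
  have cy2' : Continuous fun p : sphere (0 : E (k + 3)) 1 × ℝ => y' p.2 := cy'.comp continuous_snd
  have cW : ∀ (a : ℝ) (j : ℕ), Continuous fun p : sphere (0 : E (k + 3)) 1 × ℝ =>
      p.2 ^ j * W a p.2 := by
    intro a j
    have := hW a
    fun_prop
  -- the mean condition
  have hmean1 : ∫ r in (0:ℝ)..R, r ^ (k + 2) * W (α - 1) r * y r = 0 := by
    rw [polarG k hR.le (g := u) huc (fun x hx => h0 x hx.le)] at hmean
    rw [swapS hR.le (G := fun (v : sphere (0 : E (k + 3)) 1) (r : ℝ) =>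
      r ^ (k + 2) * W (α - 1) r * u (r • (v : E (k + 3)))) ((cW (α - 1) (k + 2)).mul cU)] at hmean
    have e1 : ∀ r : ℝ, r ^ (k + 2) * W (α - 1) r * y r = σ⁻¹ *
        ∫ v : sphere (0 : E (k + 3)) 1, r ^ (k + 2) * W (α - 1) r * u (r • (v : E (k + 3)))
          ∂(sg (k + 3)) := by
      intro r
      rw [integral_const_mul, hy]
      unfold smean
      ring
    simp_rw [e1]
    rw [intervalIntegral.integral_const_mul, hmean, mul_zero]
  have hrad := radial k hR hC0 hyd cy' hc hC hmean1
  -- the energy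
  have hE : ∫ x, W α ‖x‖ * ‖fderiv ℝ u x‖ ^ 2 = ∫ r in (0:ℝ)..R,
      (∫ v : sphere (0 : E (k + 3)) 1, r ^ (k + 2) * W α r *
        ‖fderiv ℝ u (r • (v : E (k + 3)))‖ ^ 2 ∂(sg (k + 3))) := by
    rw [polarG k hR.le (g := fun x => ‖fderiv ℝ u x‖ ^ 2) (by fun_prop)
      (fun x hx => by simp [fderiv_zero_out h0 hx])]
    exact swapS hR.le (G := fun (v : sphere (0 : E (k + 3)) 1) (r : ℝ) =>
      r ^ (k + 2) * W α r * ‖fderiv ℝ u (r • (v : E (k + 3)))‖ ^ 2) ((cW α (k + 2)).mul cN)
  -- the mass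
  have hM : ∫ x, W (α - 1) ‖x‖ * u x ^ 2 = ∫ r in (0:ℝ)..R,
      (∫ v : sphere (0 : E (k + 3)) 1, r ^ (k + 2) * W (α - 1) r *
        u (r • (v : E (k + 3))) ^ 2 ∂(sg (k + 3))) := by
    rw [polarG k hR.le (g := fun x => u x ^ 2) (by fun_prop)
      (fun x hx => by simp [h0 x hx.le])]
    exact swapS hR.le (G := fun (v : sphere (0 : E (k + 3)) 1) (r : ℝ) =>
      r ^ (k + 2) * W (α - 1) r * u (r • (v : E (k + 3))) ^ 2)
      ((cW (α - 1) (k + 2)).mul (cU.pow 2))
  -- continuity in r of the sphere integrals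
  have cz2 : Continuous fun p : sphere (0 : E (k + 3)) 1 × ℝ =>
      (u (p.2 • (p.1 : E (k + 3))) - y p.2) ^ 2 := by fun_prop
  have cz2' : Continuous fun p : sphere (0 : E (k + 3)) 1 × ℝ =>
      (fderiv ℝ u (p.2 • (p.1 : E (k + 3))) p.1 - y' p.2) ^ 2 := (cD.sub cy2').pow 2
  have cQ : ∀ (a : ℝ) (j : ℕ), Continuous (Function.uncurry fun (v : sphere (0 : E (k + 3)) 1)
      (r : ℝ) => r ^ j * W a r * (u (r • (v : E (k + 3))) - y r) ^ 2) := by
    intro a j
    have h1 := cW a j
    show Continuous fun p : sphere (0 : E (k + 3)) 1 × ℝ =>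
      p.2 ^ j * W a p.2 * (u (p.2 • (p.1 : E (k + 3))) - y p.2) ^ 2
    exact h1.mul cz2
  have cQ' : ∀ (a : ℝ) (j : ℕ), Continuous (Function.uncurry fun (v : sphere (0 : E (k + 3)) 1)
      (r : ℝ) => r ^ j * W a r * (fderiv ℝ u (r • (v : E (k + 3))) v - y' r) ^ 2) := by
    intro a j
    have h1 := cW a j
    show Continuous fun p : sphere (0 : E (k + 3)) 1 × ℝ =>
      p.2 ^ j * W a p.2 * (fderiv ℝ u (p.2 • (p.1 : E (k + 3))) p.1 - y' p.2) ^ 2
    exact h1.mul cz2'
  have cZ := sph_int_cont (G := fun (v : sphere (0 : E (k + 3)) 1) (r : ℝ) =>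
      (u (r • (v : E (k + 3))) - y r) ^ 2) cz2
  have cZ' := sph_int_cont (G := fun (v : sphere (0 : E (k + 3)) 1) (r : ℝ) =>
      (fderiv ℝ u (r • (v : E (k + 3))) v - y' r) ^ 2) cz2'
  have cWr : ∀ (a : ℝ) (j : ℕ), Continuous fun r : ℝ => r ^ j * W a r := by
    intro a j
    have := hW a
    fun_prop
  have hdecU : ∀ r, ∫ v : sphere (0 : E (k + 3)) 1, u (r • (v : E (k + 3))) ^ 2 ∂(sg (k + 3)) =
      σ * y r ^ 2 + ∫ v : sphere (0 : E (k + 3)) 1, (u (r • (v : E (k + 3))) - y r) ^ 2
        ∂(sg (k + 3)) := by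
    intro r
    exact sph_decomp (k + 2) (g := fun v : sphere (0 : E (k + 3)) 1 => u (r • (v : E (k + 3))))
      (by fun_prop) rfl
  have cDr : ∀ r : ℝ, Continuous fun v : sphere (0 : E (k + 3)) 1 =>
      fderiv ℝ u (r • (v : E (k + 3))) v := fun r => (dir_cont hu).comp
    (by fun_prop : Continuous fun v : sphere (0 : E (k + 3)) 1 => ((v : E (k + 3)), r))
  have hdecD : ∀ r, ∫ v : sphere (0 : E (k + 3)) 1, (fderiv ℝ u (r • (v : E (k + 3))) v) ^ 2
      ∂(sg (k + 3)) =
      σ * y' r ^ 2 + ∫ v : sphere (0 : E (k + 3)) 1, (fderiv ℝ u (r • (v : E (k + 3))) v - y' r) ^ 2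
        ∂(sg (k + 3)) := by
    intro r
    exact sph_decomp (k + 2)
      (g := fun v : sphere (0 : E (k + 3)) 1 => fderiv ℝ u (r • (v : E (k + 3))) v) (cDr r) rfl
  -- mass formula
  have hM2 : ∫ x, W (α - 1) ‖x‖ * u x ^ 2 =
      σ * (∫ r in (0:ℝ)..R, r ^ (k + 2) * W (α - 1) r * y r ^ 2) +
      ∫ v : sphere (0 : E (k + 3)) 1, (∫ r in (0:ℝ)..R, r ^ (k + 2) * W (α - 1) r *
        (u (r • (v : E (k + 3))) - y r) ^ 2) ∂(sg (k + 3)) := by
    rw [hM, swapS hR.le (G := fun (v : sphere (0 : E (k + 3)) 1) (r : ℝ) =>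
      r ^ (k + 2) * W (α - 1) r * (u (r • (v : E (k + 3))) - y r) ^ 2)
      (cQ (α - 1) (k + 2)), ← intervalIntegral.integral_const_mul,
      ← intervalIntegral.integral_add]
    · apply intervalIntegral.integral_congr
      intro r _
      show ∫ v : sphere (0 : E (k + 3)) 1, r ^ (k + 2) * W (α - 1) r *
        u (r • (v : E (k + 3))) ^ 2 ∂(sg (k + 3)) =
        σ * (r ^ (k + 2) * W (α - 1) r * y r ^ 2) +
        ∫ v : sphere (0 : E (k + 3)) 1, r ^ (k + 2) * W (α - 1) r *
          (u (r • (v : E (k + 3))) - y r) ^ 2 ∂(sg (k + 3))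
      rw [integral_const_mul, integral_const_mul, hdecU]
      ring
    · apply Continuous.intervalIntegrable
      have := cWr (α - 1) (k + 2)
      fun_prop
    · apply Continuous.intervalIntegrable
      simp_rw [integral_const_mul]
      exact (cWr (α - 1) (k + 2)).mul cZ
  -- energy lower bound
  have hE2 : σ * (∫ r in (0:ℝ)..R, r ^ (k + 2) * W α r * y' r ^ 2) +
      ∫ v : sphere (0 : E (k + 3)) 1, ((∫ r in (0:ℝ)..R, r ^ (k + 2) * W α r *
        (fderiv ℝ u (r • (v : E (k + 3))) v - y' r) ^ 2) +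
        (k + 2) * ∫ r in (0:ℝ)..R, r ^ k * W α r *
          (u (r • (v : E (k + 3))) - y r) ^ 2) ∂(sg (k + 3)) ≤
      ∫ x, W α ‖x‖ * ‖fderiv ℝ u x‖ ^ 2 := by
    rw [integral_add, integral_const_mul]
    · rw [swapS hR.le (G := fun (v : sphere (0 : E (k + 3)) 1) (r : ℝ) =>
        r ^ (k + 2) * W α r * (fderiv ℝ u (r • (v : E (k + 3))) v - y' r) ^ 2)
        (cQ' α (k + 2)),
        swapS hR.le (G := fun (v : sphere (0 : E (k + 3)) 1) (r : ℝ) =>
        r ^ k * W α r * (u (r • (v : E (k + 3))) - y r) ^ 2)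
        (cQ α k), ← intervalIntegral.integral_const_mul,
        ← intervalIntegral.integral_const_mul, hE,
        ← intervalIntegral.integral_add, ← intervalIntegral.integral_add]
      · apply intervalIntegral.integral_mono_on hR.le
        · apply Continuous.intervalIntegrable
          simp_rw [integral_const_mul]
          have h1 := cWr α (k + 2)
          have h2 := cWr α k
          have h3 := h1.mul cZ'
          have h4 := h2.mul cZ
          fun_prop
        · apply Continuous.intervalIntegrable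
          simp_rw [integral_const_mul]
          exact (cWr α (k + 2)).mul (sph_int_cont (G := fun (v : sphere (0 : E (k + 3)) 1)
            (r : ℝ) => ‖fderiv ℝ u (r • (v : E (k + 3)))‖ ^ 2) cN)
        · intro r hr
          rw [integral_const_mul, integral_const_mul, integral_const_mul]
          have h1 := sph_tangential k hu r
          have i1 : Integrable (fun v : sphere (0 : E (k + 3)) 1 =>
              ‖fderiv ℝ u (r • (v : E (k + 3)))‖ ^ 2) (sg (k + 3)) := sphI (by fun_prop)
          have i2 : Integrable (fun v : sphere (0 : E (k + 3)) 1 =>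
              (fderiv ℝ u (r • (v : E (k + 3))) v) ^ 2) (sg (k + 3)) := sphI ((cDr r).pow 2)
          rw [integral_sub i1 i2, hdecD r] at h1
          have h5 : 0 ≤ r ^ k * W α r := by
            have := hr.1
            have := W_pos α r
            positivity
          have h6 := mul_le_mul_of_nonneg_left h1 h5
          rw [← hy] at h6
          have e2 : r ^ (k + 2) = r ^ k * r ^ 2 := by ring
          rw [e2]
          linarith
      · apply Continuous.intervalIntegrable
        have h1 := cWr α (k + 2)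
        fun_prop
      · apply Continuous.intervalIntegrable
        simp_rw [integral_const_mul]
        have h1 := cWr α (k + 2)
        have h2 := cWr α k
        have h3 := h1.mul cZ'
        have h4 := h2.mul cZ
        fun_prop
      · apply Continuous.intervalIntegrable
        simp_rw [integral_const_mul]
        have h1 := cWr α (k + 2)
        have h3 := h1.mul cZ'
        fun_prop
      · apply Continuous.intervalIntegrable
        simp_rw [integral_const_mul]
        exact continuous_const.mul ((cWr α k).mul cZ)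
    · exact par_int hR.le (G := fun (v : sphere (0 : E (k + 3)) 1) (r : ℝ) =>
        r ^ (k + 2) * W α r * (fderiv ℝ u (r • (v : E (k + 3))) v - y' r) ^ 2)
        (cQ' α (k + 2))
    · exact (par_int hR.le (G := fun (v : sphere (0 : E (k + 3)) 1) (r : ℝ) =>
        r ^ k * W α r * (u (r • (v : E (k + 3))) - y r) ^ 2)
        (cQ α k)).const_mul _
  -- the ray inequality for the deviation
  have hray : (-2 * α) * (∫ v : sphere (0 : E (k + 3)) 1, (∫ r in (0:ℝ)..R,
        r ^ (k + 2) * W (α - 1) r * (u (r • (v : E (k + 3))) - y r) ^ 2) ∂(sg (k + 3))) ≤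
      ∫ v : sphere (0 : E (k + 3)) 1, ((∫ r in (0:ℝ)..R, r ^ (k + 2) * W α r *
        (fderiv ℝ u (r • (v : E (k + 3))) v - y' r) ^ 2) +
        (k + 2) * ∫ r in (0:ℝ)..R, r ^ k * W α r *
          (u (r • (v : E (k + 3))) - y r) ^ 2) ∂(sg (k + 3)) := by
    rw [← integral_const_mul]
    apply integral_mono
    · exact (par_int hR.le (G := fun (v : sphere (0 : E (k + 3)) 1) (r : ℝ) =>
        r ^ (k + 2) * W (α - 1) r * (u (r • (v : E (k + 3))) - y r) ^ 2)
        (cQ (α - 1) (k + 2))).const_mul _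
    · apply Integrable.add
      · exact par_int hR.le (G := fun (v : sphere (0 : E (k + 3)) 1) (r : ℝ) =>
          r ^ (k + 2) * W α r * (fderiv ℝ u (r • (v : E (k + 3))) v - y' r) ^ 2)
          (cQ' α (k + 2))
      · exact (par_int hR.le (G := fun (v : sphere (0 : E (k + 3)) 1) (r : ℝ) =>
          r ^ k * W α r * (u (r • (v : E (k + 3))) - y r) ^ 2)
          (cQ α k)).const_mul _
    · intro v
      have hyR : y R = 0 := by
        rw [hy]
        unfold smean
        have : ∀ v : sphere (0 : E (k + 3)) 1, u (R • (v : E (k + 3))) = 0 := by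
          intro v
          apply h0
          rw [norm_smul, norm_sph, mul_one, Real.norm_of_nonneg hR.le]
        simp [this]
      exact rayB k hR.le (v := fun r => u (r • (v : E (k + 3))) - y r)
        (v' := fun r => fderiv ℝ u (r • (v : E (k + 3))) v - y' r)
        (fun r => (dirD hu (v : E (k + 3)) r).sub (hyd r))
        (((dir_cont hu).comp
          (by fun_prop : Continuous fun r : ℝ => ((v : E (k + 3)), r))).sub cy')
        (by
          have : u (R • (v : E (k + 3))) = 0 := by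
            apply h0
            rw [norm_smul, norm_sph, mul_one, Real.norm_of_nonneg hR.le]
          simp [this, hyR])
  -- nonnegativity
  have p1 : 0 ≤ ∫ r in (0:ℝ)..R, r ^ (k + 2) * W (α - 1) r * y r ^ 2 := by
    apply intervalIntegral.integral_nonneg hR.le
    intro r hr
    have := hr.1
    have := W_pos (α - 1) r
    positivity
  have p2 : 0 ≤ ∫ v : sphere (0 : E (k + 3)) 1, (∫ r in (0:ℝ)..R,
        r ^ (k + 2) * W (α - 1) r * (u (r • (v : E (k + 3))) - y r) ^ 2) ∂(sg (k + 3)) := by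
    apply integral_nonneg
    intro v
    apply intervalIntegral.integral_nonneg hR.le
    intro r hr
    have := hr.1
    have := W_pos (α - 1) r
    positivity
  rw [hM2]
  have q1 := mul_le_mul_of_nonneg_right hC1 p1
  have q2 := mul_le_mul_of_nonneg_right hC2 p2
  have q3 := mul_le_mul_of_nonneg_left (q1.trans hrad) hs.le
  have q4 := q2.trans hray
  have e3 : C' * (σ * (∫ r in (0:ℝ)..R, r ^ (k + 2) * W (α - 1) r * y r ^ 2) +
      ∫ v : sphere (0 : E (k + 3)) 1, (∫ r in (0:ℝ)..R, r ^ (k + 2) * W (α - 1) r *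
        (u (r • (v : E (k + 3))) - y r) ^ 2) ∂(sg (k + 3))) =
      σ * (C' * ∫ r in (0:ℝ)..R, r ^ (k + 2) * W (α - 1) r * y r ^ 2) +
      C' * ∫ v : sphere (0 : E (k + 3)) 1, (∫ r in (0:ℝ)..R, r ^ (k + 2) * W (α - 1) r *
        (u (r • (v : E (k + 3))) - y r) ^ 2) ∂(sg (k + 3)) := by ring
  rw [e3]
  linarith

end Pool.Agent.Y243.HW
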