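import Mathlib
import Pool.Agent.Y243.HW.Polar
import Pool.Agent.Y243.HW.Ray

set_option autoImplicit false

/-!
# Moments of the weights
-/

namespace Pool.Agent.Y243.HW

open MeasureTheory Set Filter Topology Metric
open scoped ENNReal NNReal RealInnerProductSpace

variable {n : ℕ}

theorem W_int {a : ℝ} (h : 2 * a < -(n : ℝ)) : Integrable (fun x : E n => W a ‖x‖) := by
  have h1 : (Module.finrank ℝ (E n) : ℝ) < -(2 * a) := by
    rw [finrank_euclideanSpace_fin]
    linarith
  have h2 := integrable_rpow_neg_one_add_norm_sq (μ := (volume : Measure (E n))) h1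
  refine h2.congr (Eventually.of_forall fun x => ?_)
  show ((1:ℝ) + ‖x‖ ^ 2) ^ (-(-(2 * a)) / 2) = (1 + ‖x‖ ^ 2) ^ a
  congr 1
  ring

theorem W_le {a b r : ℝ} (h : a ≤ b) : W a r ≤ W b r := by
  unfold W
  exact Real.rpow_le_rpow_of_exponent_le (by nlinarith [sq_nonneg r]) h

/-- moments -/
noncomputable def mom (n : ℕ) (b : ℝ) : ℝ := ∫ x : E n, W (-b) ‖x‖

theorem Wnorm_cont (a : ℝ) : Continuous (fun x : E n => W a ‖x‖) := (W_cont a).comp continuous_norm

theorem mom_pos {b : ℝ} (h : (n : ℝ) < 2 * b) : 0 < mom n b := by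
  unfold mom
  have hi : Integrable (fun x : E n => W (-b) ‖x‖) := W_int (by linarith)
  rw [integral_pos_iff_support_of_nonneg (fun x => (W_pos _ _).le) hi]
  have : Function.support (fun x : E n => W (-b) ‖x‖) = univ := by
    ext x
    simp [(W_pos (-b) ‖x‖).ne']
  rw [this]
  exact Measure.measure_univ_pos.2 (NeZero.ne _)

theorem mom_anti {b b' : ℝ} (h : (n : ℝ) < 2 * b) (hb : b ≤ b') : mom n b' ≤ mom n b := by
  unfold mom
  exact integral_mono (W_int (by linarith)) (W_int (by linarith)) fun x => W_le (by linarith)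

theorem mom_rec (k : ℕ) {b : ℝ} (h : (k : ℝ) + 1 < 2 * b) :
    (2 * b - (k + 1)) * mom (k + 1) b = 2 * b * mom (k + 1) (b + 1) := by
  have hn : Nontrivial (E (k + 1)) := by infer_instance
  have hb : 0 < b := by
    have : (0:ℝ) ≤ k := Nat.cast_nonneg k
    linarith
  have hform : ∀ a : ℝ, ∫ x : E (k + 1), W a ‖x‖ =
      (k + 1 : ℕ) • (volume : Measure (E (k + 1))).real (ball 0 1) •
        ∫ y in Ioi (0:ℝ), y ^ k • W a y := by
    intro a
    have := integral_fun_norm_addHaar (volume : Measure (E (k + 1))) (W a)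
    rw [finrank_euclideanSpace_fin] at this
    exact this
  have hint : ∀ a : ℝ, 2 * a < -((k : ℝ) + 1) → IntegrableOn (fun y : ℝ => y ^ k • W a y)
      (Ioi 0) := by
    intro a ha
    have h1 : Integrable (fun x : E (k + 1) => W a ‖x‖) := W_int (by push_cast; linarith)
    have h2 := (integrable_fun_norm_addHaar (μ := (volume : Measure (E (k + 1))))
      (f := W a)).1 h1
    rw [finrank_euclideanSpace_fin] at h2
    exact h2
  have h1 : ∀ r ∈ Ici (0:ℝ), HasDerivAt (fun r : ℝ => r ^ (k + 1) * W (-b) r)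
      ((k + 1 - 2 * b) * (r ^ k • W (-b) r) + 2 * b * (r ^ k • W (-(b + 1)) r)) r := by
    intro r _
    have h2 : HasDerivAt (fun r : ℝ => r ^ (k + 1)) (((k + 1 : ℕ) : ℝ) * r ^ k) r := by
      simpa using hasDerivAt_pow (k + 1) r
    have h3 := h2.fun_mul (W_deriv (-b) r)
    refine h3.congr_deriv ?_
    have e1 : W (-b) r = W (-b - 1) r * (1 + r ^ 2) := W_pred _ _
    have e2 : W (-(b + 1)) r = W (-b - 1) r := by ring_nf
    rw [e1, e2]
    simp only [smul_eq_mul]
    push_cast
    ring
  have h2 : Tendsto (fun r : ℝ => r ^ (k + 1) * W (-b) r) atTop (𝓝 0) := by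
    have h3 : Tendsto (fun r : ℝ => r ^ (-(2 * b - (k + 1)))) atTop (𝓝 0) :=
      tendsto_rpow_neg_atTop (by linarith)
    apply squeeze_zero' _ _ h3
    · filter_upwards [eventually_ge_atTop 0] with r hr
      have := W_pos (-b) r
      positivity
    · filter_upwards [eventually_gt_atTop 0] with r hr
      have h4 : W (-b) r ≤ (r ^ 2) ^ (-b) := by
        unfold W
        exact Real.rpow_le_rpow_of_nonpos (by positivity) (by linarith) (by linarith)
      have h5 : r ^ (k + 1) * (r ^ 2) ^ (-b) = r ^ (-(2 * b - (k + 1))) := by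
        rw [← Real.rpow_natCast r (k + 1), ← Real.rpow_natCast r 2, ← Real.rpow_mul hr.le,
          ← Real.rpow_add hr]
        congr 1
        push_cast
        ring
      rw [← h5]
      gcongr
  have i1 := hint (-b) (by linarith)
  have i2 := hint (-(b + 1)) (by linarith)
  have h3 := integral_Ioi_of_hasDerivAt_of_tendsto' h1 ((i1.const_mul _).add (i2.const_mul _)) h2
  rw [integral_add (i1.const_mul _) (i2.const_mul _), integral_const_mul, integral_const_mul] at h3
  simp only [ne_eq, Nat.add_eq_zero_iff, one_ne_zero, and_false, not_false_eq_true, zero_pow,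
    zero_mul, sub_zero] at h3
  unfold mom
  rw [hform, hform]
  simp only [nsmul_eq_mul, smul_eq_mul] at h3 ⊢
  have h4 : (2 * b - (k + 1)) * (∫ y in Ioi (0:ℝ), y ^ k * W (-b) y) =
      2 * b * ∫ y in Ioi (0:ℝ), y ^ k * W (-(b + 1)) y := by linarith
  calc _ = ((k + 1 : ℕ) : ℝ) * (volume : Measure (E (k + 1))).real (ball 0 1) *
        ((2 * b - (k + 1)) * (∫ y in Ioi (0:ℝ), y ^ k * W (-b) y)) := by ring
    _ = _ := by rw [h4]; ring

end Pool.Agent.Y243.HW
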