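import Mathlib
import Pool.Agent.Y243.HW.Moment

set_option autoImplicit false

/-!
# Truncation of test functions
-/

namespace Pool.Agent.Y243.HW

open MeasureTheory Set Filter Topology Metric
open scoped ENNReal NNReal RealInnerProductSpace ContDiff

variable {n : ℕ}

/-- the basic bump -/
noncomputable def bump0 (n : ℕ) : ContDiffBump (0 : E n) := ⟨1, 2, one_pos, one_lt_two⟩

/-- the cut-off functions -/
noncomputable def chi (j : ℕ) (x : E n) : ℝ := bump0 n (((j : ℝ) + 1)⁻¹ • x)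

theorem chi_smooth (j : ℕ) : ContDiff ℝ ∞ (chi (n := n) j) := by
  unfold chi
  exact (bump0 n).contDiff.comp (contDiff_const_smul _)

theorem chi_nonneg (j : ℕ) (x : E n) : 0 ≤ chi j x := (bump0 n).nonneg

theorem chi_le_one (j : ℕ) (x : E n) : chi j x ≤ 1 := (bump0 n).le_one

theorem norm_scale (j : ℕ) (x : E n) : ‖((j : ℝ) + 1)⁻¹ • x‖ = ‖x‖ / ((j : ℝ) + 1) := by
  rw [norm_smul, Real.norm_of_nonneg (by positivity), inv_mul_eq_div]

theorem chi_one {j : ℕ} {x : E n} (h : ‖x‖ ≤ j + 1) : chi j x = 1 := by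
  apply (bump0 n).one_of_mem_closedBall
  rw [mem_closedBall_zero_iff, norm_scale]
  show _ ≤ (1:ℝ)
  rw [div_le_one (by positivity)]
  exact h

theorem chi_zero {j : ℕ} {x : E n} (h : 2 * ((j : ℝ) + 1) ≤ ‖x‖) : chi j x = 0 := by
  apply (bump0 n).zero_of_le_dist
  rw [dist_zero_right, norm_scale]
  show (2:ℝ) ≤ _
  rw [le_div_iff₀ (by positivity)]
  exact h

theorem chi_D_one {j : ℕ} {x : E n} (h : ‖x‖ < j + 1) : fderiv ℝ (chi j) x = 0 := by
  have h1 : chi (n := n) j =ᶠ[𝓝 x] fun _ => 1 := by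
    have : {y : E n | ‖y‖ < j + 1} ∈ 𝓝 x := (isOpen_lt continuous_norm continuous_const).mem_nhds h
    filter_upwards [this] with y hy
    exact chi_one (le_of_lt hy)
  rw [h1.fderiv_eq]
  simp

theorem chi_D_out {j : ℕ} {x : E n} (h : 2 * ((j : ℝ) + 1) < ‖x‖) : fderiv ℝ (chi j) x = 0 := by
  have h1 : chi (n := n) j =ᶠ[𝓝 x] fun _ => 0 := by
    have : {y : E n | 2 * ((j : ℝ) + 1) < ‖y‖} ∈ 𝓝 x :=
      (isOpen_lt continuous_const continuous_norm).mem_nhds h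
    filter_upwards [this] with y hy
    exact chi_zero (le_of_lt hy)
  rw [h1.fderiv_eq]
  simp

theorem chi_D_bound (n : ℕ) : ∃ K : ℝ, 0 ≤ K ∧ ∀ (j : ℕ) (x : E n),
    ‖fderiv ℝ (chi j) x‖ ≤ K / ((j : ℝ) + 1) := by
  have hs : ContDiff ℝ ∞ (bump0 n : E n → ℝ) := (bump0 n).contDiff
  have hc : Continuous (fderiv ℝ (bump0 n : E n → ℝ)) :=
    hs.continuous_fderiv (by simp)
  have hcs : HasCompactSupport (fderiv ℝ (bump0 n : E n → ℝ)) :=
    (bump0 n).hasCompactSupport.fderiv ℝ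
  obtain ⟨K, hK⟩ := hc.bounded_above_of_compact_support hcs
  refine ⟨K, (norm_nonneg _).trans (hK 0), fun j x => ?_⟩
  have h1 : fderiv ℝ (chi (n := n) j) x =
      ((j : ℝ) + 1)⁻¹ • fderiv ℝ (bump0 n : E n → ℝ) (((j : ℝ) + 1)⁻¹ • x) := by
    unfold chi
    exact fderiv_comp_smul (𝕜 := ℝ) (f := (bump0 n : E n → ℝ)) (x := x) (c := ((j : ℝ) + 1)⁻¹)
  rw [h1, norm_smul, Real.norm_of_nonneg (by positivity), inv_mul_eq_div]
  have := hK (((j : ℝ) + 1)⁻¹ • x)
  gcongr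

theorem chi_eventually (x : E n) : ∀ᶠ j : ℕ in atTop, ‖x‖ < (j : ℝ) + 1 := by
  obtain ⟨N, hN⟩ := exists_nat_gt ‖x‖
  filter_upwards [eventually_ge_atTop N] with j hj
  have : (N : ℝ) ≤ j := by exact_mod_cast hj
  linarith

/-- truncated functions are smooth with compact support -/
theorem tr_smooth {φ : E n → ℝ} (hφ : ContDiff ℝ ∞ φ) (a : ℝ) (j : ℕ) :
    ContDiff ℝ ∞ (fun x => chi j x * (φ x - a)) :=
  (chi_smooth j).mul (hφ.sub contDiff_const)

theorem tr_supp (φ : E n → ℝ) (a : ℝ) (j : ℕ) :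
    HasCompactSupport (fun x => chi j x * (φ x - a)) := by
  apply HasCompactSupport.intro (isCompact_closedBall (0 : E n) (2 * ((j : ℝ) + 1)))
  intro x hx
  rw [mem_closedBall_zero_iff, not_le] at hx
  rw [chi_zero hx.le, zero_mul]

/-- convergence of the masses -/
theorem tr_mass {α : ℝ} {φ : E n → ℝ} (hφ : ContDiff ℝ ∞ φ) {a : ℕ → ℝ} {a0 : ℝ}
    (ha : Tendsto a atTop (𝓝 a0)) {H : E n → ℝ}
    (hH : Integrable (fun x => W (α - 1) ‖x‖ * H x)) (hb : ∀ j x, (φ x - a j) ^ 2 ≤ H x) :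
    Tendsto (fun j : ℕ => ∫ x, W (α - 1) ‖x‖ * (chi j x * (φ x - a j)) ^ 2) atTop
      (𝓝 (∫ x, W (α - 1) ‖x‖ * (φ x - a0) ^ 2)) := by
  apply tendsto_integral_of_dominated_convergence (fun x => W (α - 1) ‖x‖ * H x) _ hH
  · intro j
    refine Eventually.of_forall fun x => ?_
    have h1 := chi_nonneg j x
    have h2 := chi_le_one j x
    have h3 := (W_pos (α - 1) ‖x‖).le
    rw [Real.norm_of_nonneg (by positivity)]
    apply mul_le_mul_of_nonneg_left _ h3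
    calc (chi j x * (φ x - a j)) ^ 2 = chi j x ^ 2 * (φ x - a j) ^ 2 := by ring
      _ ≤ 1 * (φ x - a j) ^ 2 := by
        gcongr
        exact pow_le_one₀ h1 h2
      _ ≤ H x := by rw [one_mul]; exact hb j x
  · refine Eventually.of_forall fun x => ?_
    have h1 : Tendsto (fun j : ℕ => W (α - 1) ‖x‖ * (1 * (φ x - a j)) ^ 2) atTop
        (𝓝 (W (α - 1) ‖x‖ * (1 * (φ x - a0)) ^ 2)) :=
      (((ha.const_sub (φ x)).const_mul 1).pow 2).const_mul _
    rw [one_mul] at h1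
    refine h1.congr' ?_
    filter_upwards [chi_eventually x] with j hj
    rw [chi_one hj.le]
  · intro j
    have h1 := (chi_smooth (n := n) j).continuous
    have h2 := hφ.continuous
    have h3 := Wnorm_cont (n := n) (α - 1)
    exact (by fun_prop : Continuous fun x : E n =>
      W (α - 1) ‖x‖ * (chi j x * (φ x - a j)) ^ 2).aestronglyMeasurable

theorem tr_fderiv {φ : E n → ℝ} (hφ : ContDiff ℝ ∞ φ) (a : ℝ) (j : ℕ) (x : E n) :
    fderiv ℝ (fun x => chi j x * (φ x - a)) x =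
      chi j x • fderiv ℝ φ x + (φ x - a) • fderiv ℝ (chi j) x := by
  have h1 : HasFDerivAt (chi j) (fderiv ℝ (chi j) x) x :=
    ((chi_smooth j).differentiable (by simp) x).hasFDerivAt
  have h2 : HasFDerivAt φ (fderiv ℝ φ x) x := (hφ.differentiable (by simp) x).hasFDerivAt
  exact (h1.fun_mul (h2.sub_const a)).fderiv

/-- convergence of the energies -/
theorem tr_energy {α : ℝ} {φ : E n → ℝ} (hφ : ContDiff ℝ ∞ φ) {a : ℕ → ℝ} {H : E n → ℝ}
    (hH : Integrable (fun x => W (α - 1) ‖x‖ * H x)) (hb : ∀ j x, (φ x - a j) ^ 2 ≤ H x)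
    (hE : Integrable (fun x => W α ‖x‖ * ‖fderiv ℝ φ x‖ ^ 2)) :
    Tendsto (fun j : ℕ => ∫ x, W α ‖x‖ * ‖fderiv ℝ (fun x => chi j x * (φ x - a j)) x‖ ^ 2) atTop
      (𝓝 (∫ x, W α ‖x‖ * ‖fderiv ℝ φ x‖ ^ 2)) := by
  obtain ⟨K, hK0, hK⟩ := chi_D_bound n
  apply tendsto_integral_of_dominated_convergence
    (fun x => 2 * (W α ‖x‖ * ‖fderiv ℝ φ x‖ ^ 2) + 10 * K ^ 2 * (W (α - 1) ‖x‖ * H x)) _
    ((hE.const_mul 2).add (hH.const_mul _))
  · intro j
    refine Eventually.of_forall fun x => ?_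
    have h1 := chi_nonneg j x
    have h2 := chi_le_one j x
    have h3 := (W_pos (α - 1) ‖x‖).le
    have h4 := (W_pos α ‖x‖).le
    rw [Real.norm_of_nonneg (by positivity), tr_fderiv hφ]
    have h5 : ‖chi j x • fderiv ℝ φ x + (φ x - a j) • fderiv ℝ (chi j) x‖ ^ 2 ≤
        2 * ‖fderiv ℝ φ x‖ ^ 2 + 2 * ((φ x - a j) ^ 2 * ‖fderiv ℝ (chi j) x‖ ^ 2) := by
      have h6 := norm_add_le (chi j x • fderiv ℝ φ x) ((φ x - a j) • fderiv ℝ (chi j) x)
      rw [norm_smul, norm_smul, Real.norm_of_nonneg h1] at h6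
      have h7 : chi j x * ‖fderiv ℝ φ x‖ ≤ ‖fderiv ℝ φ x‖ := by
        have := mul_le_mul_of_nonneg_right h2 (norm_nonneg (fderiv ℝ φ x))
        linarith
      have h8 : ‖chi j x • fderiv ℝ φ x + (φ x - a j) • fderiv ℝ (chi j) x‖ ≤
          ‖fderiv ℝ φ x‖ + ‖φ x - a j‖ * ‖fderiv ℝ (chi j) x‖ := by linarith
      have h9 := pow_le_pow_left₀ (norm_nonneg _) h8 2
      have h10 : (‖fderiv ℝ φ x‖ + ‖φ x - a j‖ * ‖fderiv ℝ (chi j) x‖) ^ 2 ≤
          2 * ‖fderiv ℝ φ x‖ ^ 2 + 2 * (‖φ x - a j‖ * ‖fderiv ℝ (chi j) x‖) ^ 2 := by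
        nlinarith [sq_nonneg (‖fderiv ℝ φ x‖ - ‖φ x - a j‖ * ‖fderiv ℝ (chi j) x‖)]
      rw [mul_pow, Real.norm_eq_abs (φ x - a j), sq_abs] at h10
      exact h9.trans h10
    have h6 : W α ‖x‖ * ‖fderiv ℝ (chi j) x‖ ^ 2 ≤ 5 * K ^ 2 * W (α - 1) ‖x‖ := by
      rcases lt_or_ge (2 * ((j : ℝ) + 1)) ‖x‖ with h | h
      · rw [chi_D_out h]
        simp only [norm_zero, ne_eq, OfNat.ofNat_ne_zero, not_false_eq_true, zero_pow, mul_zero]
        positivity
      · have hj : (1:ℝ) ≤ (j : ℝ) + 1 := by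
          have : (0:ℝ) ≤ j := Nat.cast_nonneg j
          linarith
        set t := (j : ℝ) + 1 with ht
        have h7 : 1 + ‖x‖ ^ 2 ≤ 5 * t ^ 2 := by
          have : ‖x‖ ^ 2 ≤ (2 * t) ^ 2 := pow_le_pow_left₀ (norm_nonneg _) h 2
          nlinarith
        have h8 : ‖fderiv ℝ (chi j) x‖ ^ 2 ≤ (K / t) ^ 2 :=
          pow_le_pow_left₀ (norm_nonneg _) (hK j x) 2
        rw [W_pred α]
        calc W (α - 1) ‖x‖ * (1 + ‖x‖ ^ 2) * ‖fderiv ℝ (chi j) x‖ ^ 2
            ≤ W (α - 1) ‖x‖ * (5 * t ^ 2) * (K / t) ^ 2 := by gcongr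
          _ = 5 * K ^ 2 * W (α - 1) ‖x‖ := by
            have : t ≠ 0 := by positivity
            field_simp
    have h7 := hb j x
    calc W α ‖x‖ * ‖chi j x • fderiv ℝ φ x + (φ x - a j) • fderiv ℝ (chi j) x‖ ^ 2
        ≤ W α ‖x‖ * (2 * ‖fderiv ℝ φ x‖ ^ 2 +
          2 * ((φ x - a j) ^ 2 * ‖fderiv ℝ (chi j) x‖ ^ 2)) := by gcongr
      _ = 2 * (W α ‖x‖ * ‖fderiv ℝ φ x‖ ^ 2) +
          2 * (φ x - a j) ^ 2 * (W α ‖x‖ * ‖fderiv ℝ (chi j) x‖ ^ 2) := by ring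
      _ ≤ 2 * (W α ‖x‖ * ‖fderiv ℝ φ x‖ ^ 2) +
          2 * (φ x - a j) ^ 2 * (5 * K ^ 2 * W (α - 1) ‖x‖) := by gcongr
      _ ≤ 2 * (W α ‖x‖ * ‖fderiv ℝ φ x‖ ^ 2) +
          2 * H x * (5 * K ^ 2 * W (α - 1) ‖x‖) := by gcongr
      _ = _ := by ring
  · refine Eventually.of_forall fun x => ?_
    apply tendsto_const_nhds.congr'
    filter_upwards [chi_eventually x] with j hj
    rw [tr_fderiv hφ, chi_one hj.le, chi_D_one hj, one_smul, smul_zero, add_zero]
  · intro j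
    have h1 : Continuous (fderiv ℝ (fun x : E n => chi j x * (φ x - a j))) :=
      (tr_smooth hφ (a j) j).continuous_fderiv (by simp)
    have h3 := Wnorm_cont (n := n) α
    exact (by fun_prop : Continuous fun x : E n => W α ‖x‖ *
      ‖fderiv ℝ (fun x : E n => chi j x * (φ x - a j)) x‖ ^ 2).aestronglyMeasurable

/-- unconstrained principle -/
theorem testA {α c : ℝ} (hc : ∀ u : E n → ℝ, ContDiff ℝ ∞ u → HasCompactSupport u →
      c * ∫ x, W (α - 1) ‖x‖ * u x ^ 2 ≤ ∫ x, W α ‖x‖ * ‖fderiv ℝ u x‖ ^ 2)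
    {φ : E n → ℝ} (hφ : ContDiff ℝ ∞ φ) (hN : Integrable (fun x => W (α - 1) ‖x‖ * φ x ^ 2))
    (hE : Integrable (fun x => W α ‖x‖ * ‖fderiv ℝ φ x‖ ^ 2)) :
    c * ∫ x, W (α - 1) ‖x‖ * φ x ^ 2 ≤ ∫ x, W α ‖x‖ * ‖fderiv ℝ φ x‖ ^ 2 := by
  have hb : ∀ (_ : ℕ) (x : E n), (φ x - 0) ^ 2 ≤ φ x ^ 2 := by
    intro j x
    rw [sub_zero]
  have h1 := tr_mass hφ (a := fun _ => 0) (a0 := 0) tendsto_const_nhds hN hb
  have h2 := tr_energy hφ (a := fun _ => 0) hN hb hE
  have h3 := le_of_tendsto_of_tendsto' (h1.const_mul c) h2 fun j =>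
    hc _ (tr_smooth hφ 0 j) (tr_supp φ 0 j)
  simpa using h3

/-- constrained principle -/
theorem testB {α c : ℝ} (hα : 2 * (α - 1) < -(n : ℝ))
    (hc : ∀ u : E n → ℝ, ContDiff ℝ ∞ u → HasCompactSupport u →
      ∫ x, W (α - 1) ‖x‖ * u x = 0 →
      c * ∫ x, W (α - 1) ‖x‖ * u x ^ 2 ≤ ∫ x, W α ‖x‖ * ‖fderiv ℝ u x‖ ^ 2)
    {φ : E n → ℝ} (hφ : ContDiff ℝ ∞ φ) (hN : Integrable (fun x => W (α - 1) ‖x‖ * φ x ^ 2))
    (hE : Integrable (fun x => W α ‖x‖ * ‖fderiv ℝ φ x‖ ^ 2)) :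
    c * ((∫ x, W (α - 1) ‖x‖ * φ x ^ 2) -
        (∫ x, W (α - 1) ‖x‖ * φ x) ^ 2 / ∫ x : E n, W (α - 1) ‖x‖) ≤
      ∫ x, W α ‖x‖ * ‖fderiv ℝ φ x‖ ^ 2 := by
  have hW : Integrable (fun x : E n => W (α - 1) ‖x‖) := W_int hα
  have hWc := Wnorm_cont (n := n) (α - 1)
  have hφc := hφ.continuous
  have hM : Integrable (fun x => W (α - 1) ‖x‖ * φ x) := by
    refine (hW.add hN).mono' (by fun_prop : Continuous fun x : E n =>
      W (α - 1) ‖x‖ * φ x).aestronglyMeasurable (Eventually.of_forall fun x => ?_)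
    have h3 := (W_pos (α - 1) ‖x‖).le
    rw [norm_mul, Real.norm_of_nonneg h3, Real.norm_eq_abs]
    have h4 : |φ x| ≤ 1 + φ x ^ 2 := by
      rw [← sq_abs (φ x)]
      nlinarith [sq_nonneg (|φ x| - 1 / 2)]
    show W (α - 1) ‖x‖ * |φ x| ≤ W (α - 1) ‖x‖ + W (α - 1) ‖x‖ * φ x ^ 2
    calc W (α - 1) ‖x‖ * |φ x| ≤ W (α - 1) ‖x‖ * (1 + φ x ^ 2) := by gcongr
      _ = _ := by ring
  have hW0 : 0 < ∫ x : E n, W (α - 1) ‖x‖ := by
    have := mom_pos (n := n) (b := -(α - 1)) (by linarith)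
    unfold mom at this
    rwa [neg_neg] at this
  have hχ : ∀ j : ℕ, Continuous (chi (n := n) j) := fun j => (chi_smooth j).continuous
  -- the truncated means
  have t1 : Tendsto (fun j : ℕ => ∫ x : E n, W (α - 1) ‖x‖ * chi j x) atTop
      (𝓝 (∫ x : E n, W (α - 1) ‖x‖)) := by
    apply tendsto_integral_of_dominated_convergence (fun x => W (α - 1) ‖x‖) _ hW
    · intro j
      refine Eventually.of_forall fun x => ?_
      have h1 := chi_nonneg j x
      have h2 := chi_le_one j x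
      have h3 := (W_pos (α - 1) ‖x‖).le
      rw [Real.norm_of_nonneg (by positivity)]
      nlinarith
    · refine Eventually.of_forall fun x => ?_
      apply tendsto_const_nhds.congr'
      filter_upwards [chi_eventually x] with j hj
      rw [chi_one hj.le, mul_one]
    · intro j
      have := hχ j
      exact (by fun_prop : Continuous fun x : E n => W (α - 1) ‖x‖ * chi j x).aestronglyMeasurable
  have t2 : Tendsto (fun j : ℕ => ∫ x : E n, W (α - 1) ‖x‖ * (chi j x * φ x)) atTop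
      (𝓝 (∫ x : E n, W (α - 1) ‖x‖ * φ x)) := by
    apply tendsto_integral_of_dominated_convergence (fun x => ‖W (α - 1) ‖x‖ * φ x‖) _ hM.norm
    · intro j
      refine Eventually.of_forall fun x => ?_
      have h1 := chi_nonneg j x
      have h2 := chi_le_one j x
      have h3 := (W_pos (α - 1) ‖x‖).le
      rw [norm_mul, norm_mul, norm_mul, Real.norm_of_nonneg h3, Real.norm_of_nonneg h1]
      apply mul_le_mul_of_nonneg_left _ h3
      have := mul_le_mul_of_nonneg_right h2 (norm_nonneg (φ x))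
      linarith
    · refine Eventually.of_forall fun x => ?_
      apply tendsto_const_nhds.congr'
      filter_upwards [chi_eventually x] with j hj
      rw [chi_one hj.le, one_mul]
    · intro j
      have := hχ j
      exact (by fun_prop : Continuous fun x : E n =>
        W (α - 1) ‖x‖ * (chi j x * φ x)).aestronglyMeasurable
  have pos1 : ∀ j : ℕ, 0 < ∫ x : E n, W (α - 1) ‖x‖ * chi j x := by
    intro j
    have hcont : Continuous fun x : E n => W (α - 1) ‖x‖ * chi j x := by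
      have := hχ j
      fun_prop
    have hcs : HasCompactSupport fun x : E n => W (α - 1) ‖x‖ * chi j x := by
      apply HasCompactSupport.intro (isCompact_closedBall (0 : E n) (2 * ((j : ℝ) + 1)))
      intro x hx
      rw [mem_closedBall_zero_iff, not_le] at hx
      rw [chi_zero hx.le, mul_zero]
    apply hcont.integral_pos_of_hasCompactSupport_nonneg_nonzero hcs (x := 0)
    · intro x
      exact mul_nonneg (W_pos _ _).le (chi_nonneg j x)
    · rw [chi_one (by simp; positivity), mul_one]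
      exact (W_pos _ _).ne'
  set a : ℕ → ℝ := fun j => (∫ x : E n, W (α - 1) ‖x‖ * (chi j x * φ x)) /
    ∫ x : E n, W (α - 1) ‖x‖ * chi j x with ha
  set M := ∫ x : E n, W (α - 1) ‖x‖ * φ x with hMdef
  set M0 := ∫ x : E n, W (α - 1) ‖x‖ with hM0
  have ha0 : Tendsto a atTop (𝓝 (M / M0)) := t2.div t1 hW0.ne'
  obtain ⟨A, hA⟩ := ha0.norm.bddAbove_range
  have hA' : ∀ j, |a j| ≤ A := fun j => hA ⟨j, rfl⟩
  have hb : ∀ (j : ℕ) (x : E n), (φ x - a j) ^ 2 ≤ 2 * φ x ^ 2 + 2 * A ^ 2 := by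
    intro j x
    have h1 : a j ^ 2 ≤ A ^ 2 := by
      rw [← sq_abs (a j)]
      exact pow_le_pow_left₀ (abs_nonneg _) (hA' j) 2
    nlinarith [sq_nonneg (φ x + a j)]
  have hH : Integrable (fun x : E n => W (α - 1) ‖x‖ * (2 * φ x ^ 2 + 2 * A ^ 2)) := by
    have := (hN.const_mul 2).add (hW.const_mul (2 * A ^ 2))
    refine this.congr (Eventually.of_forall fun x => ?_)
    show 2 * (W (α - 1) ‖x‖ * φ x ^ 2) + 2 * A ^ 2 * W (α - 1) ‖x‖ = _
    ring
  have h1 := tr_mass hφ ha0 hH hb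
  have h2 := tr_energy hφ hH hb hE
  have h3 := le_of_tendsto_of_tendsto' (h1.const_mul c) h2 fun j => by
    refine hc _ (tr_smooth hφ (a j) j) (tr_supp φ (a j) j) ?_
    have e1 : ∀ x : E n, W (α - 1) ‖x‖ * (chi j x * (φ x - a j)) =
        W (α - 1) ‖x‖ * (chi j x * φ x) - a j * (W (α - 1) ‖x‖ * chi j x) := by
      intro x; ring
    have hcs1 : HasCompactSupport (chi (n := n) j) := by
      apply HasCompactSupport.intro (isCompact_closedBall (0 : E n) (2 * ((j : ℝ) + 1)))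
      intro x hx
      rw [mem_closedBall_zero_iff, not_le] at hx
      rw [chi_zero hx.le]
    have hχj := hχ j
    have i1 : Integrable (fun x : E n => W (α - 1) ‖x‖ * (chi j x * φ x)) :=
      (by fun_prop : Continuous fun x : E n =>
        W (α - 1) ‖x‖ * (chi j x * φ x)).integrable_of_hasCompactSupport
        ((hcs1.mul_right (f' := φ)).mul_left (f := fun x => W (α - 1) ‖x‖))
    have i2 : Integrable (fun x : E n => W (α - 1) ‖x‖ * chi j x) :=
      (by fun_prop : Continuous fun x : E n =>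
        W (α - 1) ‖x‖ * chi j x).integrable_of_hasCompactSupport
        (hcs1.mul_left (f := fun x => W (α - 1) ‖x‖))
    rw [integral_congr_ae (Eventually.of_forall e1), integral_sub i1 (i2.const_mul _),
      integral_const_mul, ha]
    show _ - _ / _ * _ = _
    rw [div_mul_cancel₀ _ (pos1 j).ne', sub_self]
  have e2 : ∫ x, W (α - 1) ‖x‖ * (φ x - M / M0) ^ 2 =
      (∫ x, W (α - 1) ‖x‖ * φ x ^ 2) - M ^ 2 / M0 := by
    have e3 : ∀ x : E n, W (α - 1) ‖x‖ * (φ x - M / M0) ^ 2 =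
        (W (α - 1) ‖x‖ * φ x ^ 2 + (-(2 * (M / M0))) * (W (α - 1) ‖x‖ * φ x)) +
          (M / M0) ^ 2 * W (α - 1) ‖x‖ := by
      intro x; ring
    have i12 : Integrable (fun x : E n => W (α - 1) ‖x‖ * φ x ^ 2 +
        (-(2 * (M / M0))) * (W (α - 1) ‖x‖ * φ x)) := hN.add (hM.const_mul _)
    rw [integral_congr_ae (Eventually.of_forall e3), integral_add i12 (hW.const_mul _),
      integral_add hN (hM.const_mul _), integral_const_mul, integral_const_mul, ← hMdef, ← hM0]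
    have := hW0.ne'
    field_simp
    ring
  rw [e2] at h3
  exact h3

end Pool.Agent.Y243.HW
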