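import Mathlib
import Pool.Agent.Y243.HW.Trunc

set_option autoImplicit false

/-!
# Upper bounds by test functions
-/

namespace Pool.Agent.Y243.HW

open MeasureTheory Set Filter Topology Metric
open scoped ENNReal NNReal RealInnerProductSpace ContDiff

variable {n : ℕ}

theorem Wn_smooth (p : ℝ) : ContDiff ℝ ∞ (fun x : E n => W p ‖x‖) := by
  unfold W
  apply ContDiff.rpow_const_of_ne
  · exact contDiff_const.add (contDiff_norm_sq ℝ)
  · intro x
    positivity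

theorem Wn_hasFDerivAt (p : ℝ) (x : E n) :
    HasFDerivAt (fun x : E n => W p ‖x‖) ((2 * p * W (p - 1) ‖x‖) • innerSL ℝ x) x := by
  have h1 : HasFDerivAt (fun x : E n => 1 + ‖x‖ ^ 2) (2 • (innerSL ℝ x)) x :=
    (hasStrictFDerivAt_norm_sq x).hasFDerivAt.const_add 1
  have h2 : HasDerivAt (fun t : ℝ => t ^ p) (p * (1 + ‖x‖ ^ 2) ^ (p - 1)) (1 + ‖x‖ ^ 2) :=
    Real.hasDerivAt_rpow_const (Or.inl (by positivity))
  have h3 := h2.comp_hasFDerivAt x h1
  unfold W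
  refine h3.congr_fderiv ?_
  ext y
  simp
  ring

theorem Wn_fderiv_sq (p : ℝ) (x : E n) :
    ‖fderiv ℝ (fun x : E n => W p ‖x‖) x‖ ^ 2 =
      4 * p ^ 2 * (W (2 * p - 1) ‖x‖ - W (2 * p - 2) ‖x‖) := by
  rw [(Wn_hasFDerivAt p x).fderiv, norm_smul, innerSL_apply_norm, mul_pow, Real.norm_eq_abs,
    sq_abs]
  have e1 : W (2 * p - 1) ‖x‖ = W (2 * p - 2) ‖x‖ * (1 + ‖x‖ ^ 2) := by
    rw [W_pred (2 * p - 1)]
    ring_nf
  have e2 : W (2 * p - 2) ‖x‖ = W (p - 1) ‖x‖ * W (p - 1) ‖x‖ := by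
    rw [← W_add]
    ring_nf
  rw [e1, e2]
  ring

theorem Wn_energy_eq (α p : ℝ) (x : E n) : W α ‖x‖ * ‖fderiv ℝ (fun x : E n => W p ‖x‖) x‖ ^ 2 =
    4 * p ^ 2 * (W (-(1 - α - 2 * p)) ‖x‖ - W (-(1 - α - 2 * p + 1)) ‖x‖) := by
  rw [Wn_fderiv_sq]
  have e1 : W (-(1 - α - 2 * p)) ‖x‖ = W α ‖x‖ * W (2 * p - 1) ‖x‖ := by
    rw [← W_add]
    ring_nf
  have e2 : W (-(1 - α - 2 * p + 1)) ‖x‖ = W α ‖x‖ * W (2 * p - 2) ‖x‖ := by
    rw [← W_add]
    ring_nf
  rw [e1, e2]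
  ring

theorem Wn_energy_int {α p : ℝ} (h : (n : ℝ) < 2 * (1 - α - 2 * p)) :
    Integrable (fun x : E n => W α ‖x‖ * ‖fderiv ℝ (fun x : E n => W p ‖x‖) x‖ ^ 2) := by
  have h1 : Integrable (fun x : E n => W (-(1 - α - 2 * p)) ‖x‖) := W_int (by linarith)
  have h2 : Integrable (fun x : E n => W (-(1 - α - 2 * p + 1)) ‖x‖) := W_int (by linarith)
  refine ((h1.sub h2).const_mul (4 * p ^ 2)).congr (Eventually.of_forall fun x => ?_)
  exact (Wn_energy_eq α p x).symm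

theorem Wn_energy {α p : ℝ} (h : (n : ℝ) < 2 * (1 - α - 2 * p)) :
    ∫ x : E n, W α ‖x‖ * ‖fderiv ℝ (fun x : E n => W p ‖x‖) x‖ ^ 2 =
      4 * p ^ 2 * (mom n (1 - α - 2 * p) - mom n (1 - α - 2 * p + 1)) := by
  have h1 : Integrable (fun x : E n => W (-(1 - α - 2 * p)) ‖x‖) := W_int (by linarith)
  have h2 : Integrable (fun x : E n => W (-(1 - α - 2 * p + 1)) ‖x‖) := W_int (by linarith)
  rw [integral_congr_ae (Eventually.of_forall (Wn_energy_eq α p)), integral_const_mul,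
    integral_sub h1 h2]
  rfl

theorem Wn_mass_eq (α p : ℝ) (x : E n) : W (α - 1) ‖x‖ * W p ‖x‖ ^ 2 =
    W (-(1 - α - 2 * p)) ‖x‖ := by
  rw [pow_two, ← W_add, ← W_add]
  ring_nf

theorem Wn_mass_int {α p : ℝ} (h : (n : ℝ) < 2 * (1 - α - 2 * p)) :
    Integrable (fun x : E n => W (α - 1) ‖x‖ * W p ‖x‖ ^ 2) := by
  have h1 : Integrable (fun x : E n => W (-(1 - α - 2 * p)) ‖x‖) := W_int (by linarith)
  refine h1.congr (Eventually.of_forall fun x => ?_)
  exact (Wn_mass_eq α p x).symm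

theorem Wn_mass (α p : ℝ) :
    ∫ x : E n, W (α - 1) ‖x‖ * W p ‖x‖ ^ 2 = mom n (1 - α - 2 * p) := by
  rw [integral_congr_ae (Eventually.of_forall (Wn_mass_eq α p))]
  rfl

theorem Wn_mean (α p : ℝ) :
    ∫ x : E n, W (α - 1) ‖x‖ * W p ‖x‖ = mom n (1 - α - p) := by
  unfold mom
  refine integral_congr_ae (Eventually.of_forall fun x => ?_)
  show W (α - 1) ‖x‖ * W p ‖x‖ = W (-(1 - α - p)) ‖x‖
  rw [← W_add]
  ring_nf

theorem Wn_zero (α : ℝ) : ∫ x : E n, W (α - 1) ‖x‖ = mom n (1 - α) := by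
  unfold mom
  rw [neg_sub]

/-- general upper bound in the unconstrained case -/
theorem upA1 {α c : ℝ} (hc : ∀ u : E n → ℝ, ContDiff ℝ ∞ u → HasCompactSupport u →
      c * ∫ x, W (α - 1) ‖x‖ * u x ^ 2 ≤ ∫ x, W α ‖x‖ * ‖fderiv ℝ u x‖ ^ 2) :
    c ≤ (n + 2 * α - 2) ^ 2 / 4 := by
  have key : ∀ e : ℝ, 0 < e → c ≤ 4 * (-((n + 2 * α - 2) / 4) - e) ^ 2 := by
    intro e he
    set p := -((n + 2 * α - 2) / 4) - e with hp
    have h : (n : ℝ) < 2 * (1 - α - 2 * p) := by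
      rw [hp]; linarith
    have h1 := testA hc (Wn_smooth p) (Wn_mass_int h) (Wn_energy_int h)
    rw [Wn_mass, Wn_energy h] at h1
    have h2 := mom_pos h
    have h3 : 0 < mom n (1 - α - 2 * p + 1) := mom_pos (by linarith)
    have h4 : c * mom n (1 - α - 2 * p) ≤ 4 * p ^ 2 * mom n (1 - α - 2 * p) := by
      nlinarith [mul_nonneg (sq_nonneg p) h3.le]
    exact le_of_mul_le_mul_right h4 h2
  have h1 : Tendsto (fun e : ℝ => 4 * (-((n + 2 * α - 2) / 4) - e) ^ 2) (𝓝[>] 0)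
      (𝓝 (4 * (-((n + 2 * α - 2) / 4) - 0) ^ 2)) := by
    apply Tendsto.mono_left _ nhdsWithin_le_nhds
    apply Continuous.tendsto
    fun_prop
  have h2 := ge_of_tendsto h1 (eventually_nhdsWithin_of_forall key)
  calc c ≤ _ := h2
    _ = _ := by ring

/-- upper bound for large exponents -/
theorem upA2 (k : ℕ) {α c : ℝ} (hα : 1 + ((k : ℝ) + 1) / 2 < α)
    (hc : ∀ u : E (k + 1) → ℝ, ContDiff ℝ ∞ u → HasCompactSupport u →
      c * ∫ x, W (α - 1) ‖x‖ * u x ^ 2 ≤ ∫ x, W α ‖x‖ * ‖fderiv ℝ u x‖ ^ 2) :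
    c ≤ 2 * (k + 1) * (α - 1) := by
  have h : (((k + 1 : ℕ) : ℝ)) < 2 * (1 - α - 2 * (1 - α)) := by
    push_cast; linarith
  have h1 := testA hc (Wn_smooth (1 - α)) (Wn_mass_int h) (Wn_energy_int h)
  rw [Wn_mass, Wn_energy h] at h1
  have h2 := mom_pos h
  have h3 := mom_rec k (b := 1 - α - 2 * (1 - α)) (by push_cast at h; linarith)
  have hb : 1 - α - 2 * (1 - α) = α - 1 := by ring
  rw [hb] at h1 h2 h3
  set m := mom (k + 1) (α - 1)
  set m' := mom (k + 1) (α - 1 + 1)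
  have hk : (0:ℝ) ≤ k := Nat.cast_nonneg k
  have h4 : c * m ≤ 2 * (k + 1) * (α - 1) * m := by
    calc c * m ≤ 4 * (1 - α) ^ 2 * (m - m') := h1
      _ = 2 * (α - 1) * (2 * (α - 1) * m - 2 * (α - 1) * m') := by ring
      _ = 2 * (α - 1) * (2 * (α - 1) * m - (2 * (α - 1) - (k + 1)) * m) := by rw [h3]
      _ = _ := by ring
  exact le_of_mul_le_mul_right h4 h2

/-- upper bound in the constrained case, for the middle range -/
theorem upB1 (k : ℕ) {α c : ℝ} (hα : α < -((k : ℝ) + 1 - 2) / 2)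
    (hc : ∀ u : E (k + 1) → ℝ, ContDiff ℝ ∞ u → HasCompactSupport u →
      ∫ x, W (α - 1) ‖x‖ * u x = 0 →
      c * ∫ x, W (α - 1) ‖x‖ * u x ^ 2 ≤ ∫ x, W α ‖x‖ * ‖fderiv ℝ u x‖ ^ 2) :
    c ≤ ((k + 1) + 2 * α - 2) ^ 2 / 4 := by
  have hα' : 2 * (α - 1) < -((k + 1 : ℕ) : ℝ) := by
    push_cast; linarith
  set q : ℝ := ((k + 1) + 2 * α - 2) / 4 with hq
  have hM0 : 0 < mom (k + 1) (1 - α) := mom_pos (by linarith)
  have hc0 : ((k + 1 : ℕ) : ℝ) < 2 * (1 - α + q) := by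
    push_cast; rw [hq]; linarith
  have hMc := mom_pos hc0
  have hk : (0:ℝ) ≤ k := Nat.cast_nonneg k
  have hL : 0 < mom (k + 1) (((k : ℝ) + 1) / 2 + 2) := mom_pos (by push_cast; linarith)
  set M0 := mom (k + 1) (1 - α) with hM0d
  set Mc := mom (k + 1) (1 - α + q) with hMcd
  set L := mom (k + 1) (((k : ℝ) + 1) / 2 + 2) with hLd
  have key : ∀ e ∈ Ioo (0:ℝ) (1 / 2), c ≤ 4 * (-q - e) ^ 2 +
      |c| * (4 * e) * Mc ^ 2 / (M0 * ((k + 1) * L)) := by
    intro e he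
    obtain ⟨he0, he1⟩ := he
    have hβ : 1 - α - 2 * (-q - e) = ((k : ℝ) + 1) / 2 + 2 * e := by
      rw [hq]; ring
    have h : ((k + 1 : ℕ) : ℝ) < 2 * (1 - α - 2 * (-q - e)) := by
      rw [hβ]; push_cast; linarith
    have h1 := testB hα' hc (Wn_smooth (-q - e)) (Wn_mass_int h) (Wn_energy_int h)
    rw [Wn_mass, Wn_energy h, Wn_mean, Wn_zero] at h1
    have h2 := mom_pos h
    have h3 := mom_rec k (b := 1 - α - 2 * (-q - e)) (by push_cast at h; linarith)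
    have h5 : mom (k + 1) (1 - α - (-q - e)) ≤ Mc := mom_anti hc0 (by linarith)
    have h5' : 0 < mom (k + 1) (1 - α - (-q - e)) := mom_pos (by push_cast at hc0 ⊢; linarith)
    have h6 : L ≤ mom (k + 1) (1 - α - 2 * (-q - e) + 1) :=
      mom_anti (by push_cast at h ⊢; linarith) (by rw [hβ]; linarith)
    have h7 : 0 < mom (k + 1) (1 - α - 2 * (-q - e) + 1) := hL.trans_le h6
    set N := mom (k + 1) (1 - α - 2 * (-q - e))
    set N' := mom (k + 1) (1 - α - 2 * (-q - e) + 1)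
    set M := mom (k + 1) (1 - α - (-q - e))
    rw [hβ] at h3
    have h8 : 4 * e * N = (k + 1 + 4 * e) * N' := by
      linarith
    have h9 : (k + 1) * L ≤ 4 * e * N := by
      rw [h8]
      nlinarith [mul_pos he0 h7]
    have h10 : c * N ≤ 4 * (-q - e) ^ 2 * N + |c| * (M ^ 2 / M0) := by
      have h11 : c * (M ^ 2 / M0) ≤ |c| * (M ^ 2 / M0) :=
        mul_le_mul_of_nonneg_right (le_abs_self c) (by positivity)
      nlinarith [mul_nonneg (sq_nonneg (-q - e)) h7.le]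
    have h11 : M ^ 2 / M0 ≤ Mc ^ 2 / M0 := by gcongr
    have h12 : 1 ≤ 4 * e * N / ((k + 1) * L) := by
      rw [le_div_iff₀ (by positivity), one_mul]
      exact h9
    have h13 : |c| * (Mc ^ 2 / M0) ≤ |c| * (Mc ^ 2 / M0) * (4 * e * N / ((k + 1) * L)) :=
      le_mul_of_one_le_right (by positivity) h12
    have h14 : c * N ≤ (4 * (-q - e) ^ 2 + |c| * (4 * e) * Mc ^ 2 / (M0 * ((k + 1) * L))) * N := by
      calc c * N ≤ 4 * (-q - e) ^ 2 * N + |c| * (M ^ 2 / M0) := h10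
        _ ≤ 4 * (-q - e) ^ 2 * N + |c| * (Mc ^ 2 / M0) := by gcongr
        _ ≤ 4 * (-q - e) ^ 2 * N + |c| * (Mc ^ 2 / M0) * (4 * e * N / ((k + 1) * L)) := by
          linarith
        _ = _ := by
          have := hM0.ne'
          have := hL.ne'
          field_simp
    exact le_of_mul_le_mul_right h14 h2
  have h1 : Tendsto (fun e : ℝ => 4 * (-q - e) ^ 2 +
      |c| * (4 * e) * Mc ^ 2 / (M0 * ((k + 1) * L))) (𝓝[>] 0)
      (𝓝 (4 * (-q - 0) ^ 2 + |c| * (4 * 0) * Mc ^ 2 / (M0 * ((k + 1) * L)))) := by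
    apply Tendsto.mono_left _ nhdsWithin_le_nhds
    apply Continuous.tendsto
    fun_prop
  have h2 : ∀ᶠ e in 𝓝[>] (0:ℝ), c ≤ 4 * (-q - e) ^ 2 +
      |c| * (4 * e) * Mc ^ 2 / (M0 * ((k + 1) * L)) := by
    filter_upwards [Ioo_mem_nhdsGT (show (0:ℝ) < 1 / 2 by norm_num)] with e he
    exact key e he
  have h3 := ge_of_tendsto h1 h2
  calc c ≤ _ := h3
    _ = _ := by rw [hq]; ring

/-- upper bound by the quadratic radial function -/
theorem upB2 (k : ℕ) {α c : ℝ} (hα : α < -((k : ℝ) + 3) / 2)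
    (hc : ∀ u : E (k + 1) → ℝ, ContDiff ℝ ∞ u → HasCompactSupport u →
      ∫ x, W (α - 1) ‖x‖ * u x = 0 →
      c * ∫ x, W (α - 1) ‖x‖ * u x ^ 2 ≤ ∫ x, W α ‖x‖ * ‖fderiv ℝ u x‖ ^ 2) :
    c ≤ -4 * α - 2 * (k + 1) := by
  have hα' : 2 * (α - 1) < -((k + 1 : ℕ) : ℝ) := by
    push_cast; linarith
  have h : ((k + 1 : ℕ) : ℝ) < 2 * (1 - α - 2 * 1) := by
    push_cast; linarith
  have h1 := testB hα' hc (Wn_smooth 1) (Wn_mass_int h) (Wn_energy_int h)
  rw [Wn_mass, Wn_energy h, Wn_mean, Wn_zero] at h1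
  have h2 : 0 < mom (k + 1) (1 - α - 2 * 1 + 1) := mom_pos (by linarith)
  have h3 := mom_rec k (b := 1 - α - 2 * 1) (by push_cast at h; linarith)
  have h4 := mom_rec k (b := 1 - α - 2 * 1 + 1) (by push_cast at h; linarith)
  have e1 : 1 - α - 1 = 1 - α - 2 * 1 + 1 := by ring
  have e2 : mom (k + 1) (1 - α) = mom (k + 1) (1 - α - 2 * 1 + 1 + 1) := by
    congr 1; ring
  rw [e1, e2] at h1
  have hk : (0:ℝ) ≤ k := Nat.cast_nonneg k
  push_cast at h
  set b := 1 - α - 2 * 1 with hb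
  set m0 := mom (k + 1) b
  set m := mom (k + 1) (b + 1)
  set m2 := mom (k + 1) (b + 1 + 1)
  have hb1 : 0 < 2 * b - (k + 1) := by linarith
  have hb2 : 0 < 2 * (b + 1) - (k + 1) := by linarith
  have hb3 : 0 < b := by linarith
  have h5 : m0 = 2 * b / (2 * b - (k + 1)) * m := by
    field_simp
    linarith
  have h6 : m2 = (2 * (b + 1) - (k + 1)) / (2 * (b + 1)) * m := by
    field_simp
    linarith
  have h7 : m ^ 2 / m2 = 2 * (b + 1) / (2 * (b + 1) - (k + 1)) * m := by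
    rw [h6]
    field_simp
  have h8 : m0 - m ^ 2 / m2 = 2 * (k + 1) / ((2 * b - (k + 1)) * (2 * (b + 1) - (k + 1))) * m := by
    rw [h7, h5]
    field_simp
    ring
  have h9 : 4 * (1:ℝ) ^ 2 * (m0 - m) = 4 * (k + 1) / (2 * b - (k + 1)) * m := by
    rw [h5]
    field_simp
    ring
  rw [h8, h9] at h1
  have h10 : c * (2 * (k + 1) * m / ((2 * b - (k + 1)) * (2 * (b + 1) - (k + 1)))) ≤
      (2 * (2 * (b + 1) - (k + 1))) *
        (2 * (k + 1) * m / ((2 * b - (k + 1)) * (2 * (b + 1) - (k + 1)))) := by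
    calc _ = c * (2 * (k + 1) / ((2 * b - (k + 1)) * (2 * (b + 1) - (k + 1))) * m) := by ring
      _ ≤ _ := h1
      _ = _ := by
        field_simp
        ring
  have h11 := le_of_mul_le_mul_right h10 (by positivity)
  calc c ≤ _ := h11
    _ = _ := by rw [hb]; ring

/-- upper bound by a coordinate function -/
theorem upB3 (k : ℕ) {α c : ℝ} (hα : α ≤ -((k : ℝ) + 2))
    (hc : ∀ u : E (k + 2) → ℝ, ContDiff ℝ ∞ u → HasCompactSupport u →
      ∫ x, W (α - 1) ‖x‖ * u x = 0 →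
      c * ∫ x, W (α - 1) ‖x‖ * u x ^ 2 ≤ ∫ x, W α ‖x‖ * ‖fderiv ℝ u x‖ ^ 2) :
    c ≤ -2 * α := by
  have hk : (0:ℝ) ≤ k := Nat.cast_nonneg k
  set L : E (k + 2) →L[ℝ] ℝ := EuclideanSpace.proj (0 : Fin (k + 2)) with hL
  have hLx : ∀ x : E (k + 2), |L x| ≤ ‖x‖ := by
    intro x
    have := EuclideanSpace.norm_eq x
    rw [this]
    apply Real.abs_le_sqrt
    have h1 : L x ^ 2 = ‖x 0‖ ^ 2 := by
      rw [Real.norm_eq_abs, sq_abs]
      rfl
    rw [h1]
    exact Finset.single_le_sum (f := fun i => ‖x i‖ ^ 2) (fun i _ => sq_nonneg _)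
      (Finset.mem_univ 0)
  have hLn : ‖L‖ ≤ 1 := by
    apply L.opNorm_le_bound zero_le_one
    intro x
    rw [one_mul]
    exact hLx x
  have hLs : ContDiff ℝ ∞ (fun x => L x) := L.contDiff
  have hLc : Continuous (fun x => L x) := L.continuous
  have hLd : ∀ x, fderiv ℝ (fun x => L x) x = L := fun x => L.fderiv
  have hα' : 2 * (α - 1) < -((k + 2 : ℕ) : ℝ) := by
    push_cast; linarith
  have iWα : Integrable (fun x : E (k + 2) => W α ‖x‖) := W_int (by push_cast; linarith)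
  have hWc := Wnorm_cont (n := k + 2)
  have hN : Integrable (fun x : E (k + 2) => W (α - 1) ‖x‖ * L x ^ 2) := by
    have := hWc (α - 1)
    refine iWα.mono' (by fun_prop : Continuous fun x : E (k + 2) =>
      W (α - 1) ‖x‖ * L x ^ 2).aestronglyMeasurable (Eventually.of_forall fun x => ?_)
    have h3 := (W_pos (α - 1) ‖x‖).le
    rw [Real.norm_of_nonneg (by positivity), W_pred α]
    apply mul_le_mul_of_nonneg_left _ h3
    have := pow_le_pow_left₀ (abs_nonneg _) (hLx x) 2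
    rw [sq_abs] at this
    linarith
  have hE : Integrable (fun x : E (k + 2) => W α ‖x‖ * ‖fderiv ℝ (fun x => L x) x‖ ^ 2) := by
    simp_rw [hLd]
    exact iWα.mul_const _
  have h1 := testB hα' hc hLs hN hE
  have hmean : ∫ x : E (k + 2), W (α - 1) ‖x‖ * L x = 0 := by
    have h2 : ∫ x : E (k + 2), W (α - 1) ‖x‖ * L x =
        ∫ x : E (k + 2), W (α - 1) ‖-x‖ * L (-x) :=
      (integral_neg_eq_self (fun x : E (k + 2) => W (α - 1) ‖x‖ * L x) volume).symm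
    have h3 : ∀ x : E (k + 2), W (α - 1) ‖-x‖ * L (-x) = -(W (α - 1) ‖x‖ * L x) := by
      intro x
      rw [norm_neg, map_neg, mul_neg]
    rw [integral_congr_ae (Eventually.of_forall h3), integral_neg] at h2
    linarith
  rw [hmean] at h1
  simp only [ne_eq, OfNat.ofNat_ne_zero, not_false_eq_true, zero_pow, zero_div, sub_zero] at h1
  -- integration by parts
  set v : E (k + 2) := EuclideanSpace.single 0 1 with hv
  have hLv : L v = 1 := by
    simp [hL, hv]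
  have hxv : ∀ x : E (k + 2), ⟪x, v⟫ = L x := by
    intro x
    rw [hv, EuclideanSpace.inner_single_right]
    simp [hL]
  have hfd : ∀ x : E (k + 2), fderiv ℝ (fun x : E (k + 2) => W α ‖x‖) x v =
      2 * α * W (α - 1) ‖x‖ * L x := by
    intro x
    rw [(Wn_hasFDerivAt α x).fderiv]
    show (2 * α * W (α - 1) ‖x‖) • (innerSL ℝ x v) = _
    rw [innerSL_apply_apply, hxv]
    rfl
  have ibp := integral_mul_fderiv_eq_neg_fderiv_mul_of_integrable
    (μ := (volume : Measure (E (k + 2)))) (f := fun x : E (k + 2) => W α ‖x‖)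
    (g := fun x => L x) (v := v)
    (by
      simp_rw [hfd]
      refine (hN.const_mul (2 * α)).congr (Eventually.of_forall fun x => ?_)
      show 2 * α * (W (α - 1) ‖x‖ * L x ^ 2) = 2 * α * W (α - 1) ‖x‖ * L x * L x
      ring)
    (by
      simp_rw [hLd]
      exact iWα.mul_const _)
    (by
      have i1 : Integrable (fun x : E (k + 2) => W (α + 1 / 2) ‖x‖) :=
        W_int (by push_cast; linarith)
      have := hWc α
      refine i1.mono' (by fun_prop : Continuous fun x : E (k + 2) =>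
        W α ‖x‖ * L x).aestronglyMeasurable (Eventually.of_forall fun x => ?_)
      have h3 := (W_pos α ‖x‖).le
      rw [norm_mul, Real.norm_of_nonneg h3, W_add, Real.norm_eq_abs]
      apply mul_le_mul_of_nonneg_left _ h3
      refine (hLx x).trans ?_
      unfold W
      rw [← Real.sqrt_eq_rpow]
      apply Real.le_sqrt_of_sq_le
      linarith)
    (fun x _ => ((Wn_smooth α).differentiable (by simp) x))
    (fun x _ => L.differentiableAt)
  simp_rw [hfd, hLd, hLv] at ibp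
  have e1 : ∀ x : E (k + 2), 2 * α * W (α - 1) ‖x‖ * L x * L x =
      2 * α * (W (α - 1) ‖x‖ * L x ^ 2) := by
    intro x; ring
  rw [integral_congr_ae (Eventually.of_forall e1), integral_const_mul] at ibp
  simp only [mul_one] at ibp
  have h2 : ∫ x : E (k + 2), W α ‖x‖ * ‖fderiv ℝ (fun x => L x) x‖ ^ 2 ≤
      ∫ x : E (k + 2), W α ‖x‖ := by
    apply integral_mono hE iWα
    intro x
    have h3 := (W_pos α ‖x‖).le
    show W α ‖x‖ * ‖fderiv ℝ (fun x => L x) x‖ ^ 2 ≤ W α ‖x‖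
    rw [hLd]
    have : ‖L‖ ^ 2 ≤ 1 := pow_le_one₀ (norm_nonneg _) hLn
    nlinarith
  have hpos : 0 < ∫ x : E (k + 2), W (α - 1) ‖x‖ * L x ^ 2 := by
    have h5 : 0 < ∫ x : E (k + 2), W α ‖x‖ := by
      have := mom_pos (n := k + 2) (b := -α) (by push_cast; linarith)
      unfold mom at this
      rwa [neg_neg] at this
    rw [ibp] at h5
    by_contra hcon
    push Not at hcon
    have h6 : 0 ≤ α * ∫ x : E (k + 2), W (α - 1) ‖x‖ * L x ^ 2 :=
      mul_nonneg_of_nonpos_of_nonpos (by linarith) hcon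
    linarith
  have h3 : c * ∫ x : E (k + 2), W (α - 1) ‖x‖ * L x ^ 2 ≤
      (-2 * α) * ∫ x : E (k + 2), W (α - 1) ‖x‖ * L x ^ 2 := by
    calc _ ≤ _ := h1
      _ ≤ _ := h2
      _ = _ := ibp
      _ = _ := by ring
  exact le_of_mul_le_mul_right h3 hpos

end Pool.Agent.Y243.HW
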