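import Mathlib
import Pool.Agent.Y243.HW.Lower
import Pool.Agent.Y243.HW.Upper

set_option autoImplicit false

/-!
# Assembly of the lower bounds
-/

namespace Pool.Agent.Y243.HW

open MeasureTheory Set Filter Topology Metric
open scoped ENNReal NNReal RealInnerProductSpace ContDiff

/-- the value of the best constant -/
noncomputable def bestC (n : ℕ) (α : ℝ) : ℝ :=
  if α ≤ -n then -2 * α
  else if α ≤ -((n : ℝ) + 2) / 2 then -4 * α - 2 * n
  else if α ≤ 1 + (n : ℝ) / 2 then (n + 2 * α - 2) ^ 2 / 4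
  else 2 * n * (α - 1)

theorem exists_radius {n : ℕ} {u : E n → ℝ} (h : HasCompactSupport u) :
    ∃ R : ℝ, 0 < R ∧ ∀ x, R ≤ ‖x‖ → u x = 0 := by
  obtain ⟨R, hR⟩ := h.isCompact.isBounded.subset_ball (0 : E n)
  refine ⟨max R 1, lt_max_of_lt_right one_pos, fun x hx => ?_⟩
  by_contra hne
  have h1 : x ∈ tsupport u := subset_closure hne
  have h2 := hR h1
  rw [mem_ball_zero_iff] at h2
  exact absurd (lt_of_lt_of_le h2 (le_max_left R 1)) (not_lt.2 hx)

/-- the lower bound in all cases -/
theorem lower_all (k : ℕ) (α : ℝ) {u : E (k + 3) → ℝ} (hu : ContDiff ℝ 1 u)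
    (hs : HasCompactSupport u)
    (hmean : α < -(((k + 3 : ℕ) : ℝ) - 2) / 2 → ∫ x, W (α - 1) ‖x‖ * u x = 0) :
    bestC (k + 3) α * ∫ x, W (α - 1) ‖x‖ * u x ^ 2 ≤ ∫ x, W α ‖x‖ * ‖fderiv ℝ u x‖ ^ 2 := by
  obtain ⟨R, hR, h0⟩ := exists_radius hs
  have hk : (0:ℝ) ≤ k := Nat.cast_nonneg k
  unfold bestC
  push_cast at hmean ⊢
  split_ifs with h1 h2 h3
  · -- α ≤ -n
    exact lowerB k (κ := 0) (C := -4 * α - 2 * (k + 3)) (c := (k + 3) + 2 * α) hR
      (by linarith) hu h0 (by ring) (fun r => le_of_eq (by ring)) (by linarith) le_rfl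
      (hmean (by linarith))
  · exact lowerB k (κ := 0) (C := -4 * α - 2 * (k + 3)) (c := (k + 3) + 2 * α) hR
      (by linarith) hu h0 (by ring) (fun r => le_of_eq (by ring)) le_rfl (by linarith)
      (hmean (by linarith))
  · rcases lt_or_ge α (-((k : ℝ) + 3 - 2) / 2) with h4 | h4
    · -- middle range with constraint
      set s : ℝ := (k + 3) + 2 * α - 2 with hsdef
      have hs0 : s < 0 := by rw [hsdef]; linarith
      have hs4 : -4 < s := by rw [hsdef]; linarith
      refine lowerB k (κ := (s + 4) / 4) (C := s ^ 2 / 4) (c := s / 2) hR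
        (by positivity) hu h0 (by rw [hsdef]; ring) (fun r => ?_) le_rfl ?_ (hmean h4)
      · have h5 : 0 ≤ -(s * (s + 4)) := by nlinarith
        have h6 : 0 ≤ ((k : ℝ) + 3) * (s + 4) := by nlinarith
        nlinarith [sq_nonneg r]
      · have h5 : 0 ≤ -(s * (s + 4)) := by nlinarith
        have h7 : -2 * α = (k + 3) - 2 - s := by rw [hsdef]; ring
        rw [h7]
        nlinarith
    · refine lowerA k (s := ((k + 3) + 2 * α - 2) / 4) (C := ((k + 3) + 2 * α - 2) ^ 2 / 4) hR.le
        (by positivity) hu h0 (fun r => ?_)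
      set s : ℝ := (k + 3) + 2 * α - 2 with hsdef
      have hs0 : 0 ≤ s := by rw [hsdef]; linarith
      have hs1 : s ≤ 2 * (k + 3) := by rw [hsdef]; linarith
      have hα : α = (s + 2 - (k + 3)) / 2 := by rw [hsdef]; ring
      rw [hα]
      nlinarith [mul_nonneg hs0 (sub_nonneg.2 hs1)]
  · push Not at h3
    exact lowerA k (s := α - 1) (C := 2 * (k + 3) * (α - 1)) hR.le
      (by
        have : 0 ≤ α - 1 := by linarith
        positivity) hu h0 (fun r => le_of_eq (by ring))

/-- positivity of the mass -/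
theorem mass_pos {n : ℕ} {a : ℝ} {u : E n → ℝ} (hu : Continuous u) (hs : HasCompactSupport u)
    (hne : u ≠ 0) : 0 < ∫ x, W a ‖x‖ * u x ^ 2 := by
  obtain ⟨x, hx⟩ := Function.ne_iff.1 hne
  have hc : Continuous fun x : E n => W a ‖x‖ * u x ^ 2 := by
    have := Wnorm_cont (n := n) a
    fun_prop
  have hcs : HasCompactSupport fun x : E n => W a ‖x‖ * u x ^ 2 := by
    refine hs.mono fun y hy => ?_
    simp only [Function.mem_support, ne_eq, mul_eq_zero, not_or] at hy ⊢
    intro h
    exact hy.2 (by rw [h]; norm_num)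
  apply hc.integral_pos_of_hasCompactSupport_nonneg_nonzero hcs (x := x)
  · intro y
    have := W_pos a ‖y‖
    positivity
  · have h1 := W_pos a ‖x‖
    have h2 : u x ≠ 0 := hx
    positivity

/-- the upper bound in all cases -/
theorem upper_all (k : ℕ) {α c : ℝ} (hc : ∀ u : E (k + 3) → ℝ, ContDiff ℝ ∞ u →
      HasCompactSupport u →
      (α < -(((k + 3 : ℕ) : ℝ) - 2) / 2 → ∫ x, W (α - 1) ‖x‖ * u x = 0) →
      c * ∫ x, W (α - 1) ‖x‖ * u x ^ 2 ≤ ∫ x, W α ‖x‖ * ‖fderiv ℝ u x‖ ^ 2) :
    c ≤ bestC (k + 3) α := by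
  have hk : (0:ℝ) ≤ k := Nat.cast_nonneg k
  unfold bestC
  push_cast at hc ⊢
  split_ifs with h1 h2 h3
  · exact upB3 (k + 1) (by push_cast; linarith) fun u hu hs hm => hc u hu hs fun _ => hm
  · rcases h2.lt_or_eq with h4 | h4
    · have := upB2 (k + 2) (c := c) (α := α) (by push_cast; linarith)
        fun u hu hs hm => hc u hu hs fun _ => hm
      push_cast at this
      linarith
    · have := upB1 (k + 2) (c := c) (α := α) (by push_cast; linarith)
        fun u hu hs hm => hc u hu hs fun _ => hm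
      push_cast at this
      have h5 : α = -((k : ℝ) + 3 + 2) / 2 := h4
      rw [h5] at this ⊢
      nlinarith
  · rcases lt_or_ge α (-((k : ℝ) + 3 - 2) / 2) with h4 | h4
    · have := upB1 (k + 2) (c := c) (α := α) (by push_cast; linarith)
        fun u hu hs hm => hc u hu hs fun _ => hm
      push_cast at this
      calc c ≤ _ := this
        _ = _ := by ring
    · have := upA1 (n := k + 3) (c := c) (α := α)
        fun u hu hs => hc u hu hs fun h => absurd h (not_lt.2 h4)
      push_cast at this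
      exact this
  · push Not at h3
    have := upA2 (k + 2) (c := c) (α := α) (by push_cast; linarith)
        fun u hu hs => hc u hu hs fun h => absurd h (not_lt.2 (by linarith))
    push_cast at this
    calc c ≤ _ := this
      _ = _ := by ring

end Pool.Agent.Y243.HW
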